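import Pool.Agent.MUG.Tan

/-!
# MUG: groups of matrices of determinant one
-/

set_option linter.unusedSectionVars false
set_option linter.unusedVariables false

namespace Pool.Agent.MUG

open Pool.Agent.MUW

universe w

variable {F : Type w} [Field F] {l : ℕ} {r : Fin l → ℕ}

private noncomputable def adjX (F : Type w) [Field F] {l : ℕ} {r : Fin l → ℕ} (i : Fin l) :
    Matrix (Fin (r i)) (Fin (r i)) (MvPolynomial (Crd r) F) :=
  Matrix.of fun y z => MvPolynomial.X ⟨i, (y, z)⟩

private theorem adj_map (h : Tup F r) (i : Fin l) :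
    (adjX F (r := r) i).map (MvPolynomial.eval (crd h)) = h i := by
  ext y z
  show MvPolynomial.eval (crd h) (MvPolynomial.X _) = _
  rw [MvPolynomial.eval_X]
  rfl

private theorem adj_det (h : Tup F r) (i : Fin l) :
    MvPolynomial.eval (crd h) (adjX F i).det = (h i).det := by
  rw [RingHom.map_det]
  congr 1
  exact adj_map h i

private theorem adj_van {N : Set (Tup F r)} (hS : ∀ h ∈ N, Sl h) (i : Fin l) :
    Van N ((adjX F i).det - 1) := by
  intro h hh
  rw [map_sub, map_one, adj_det, hS h hh i, sub_self]

theorem cl_sl {N : Set (Tup F r)} (hS : ∀ h ∈ N, Sl h) {h : Tup F r} (hh : h ∈ Cl N) : Sl h := by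
  intro i
  have h1 := hh _ (adj_van hS i)
  rw [map_sub, map_one, adj_det, sub_eq_zero] at h1
  exact h1

private noncomputable def adjA :
    MvPolynomial (Crd r) F →ₐ[F] MvPolynomial (Crd r) F :=
  MvPolynomial.aeval fun x => (adjX F x.1).adjugate x.2.1 x.2.2

private theorem adj_eval (h : Tup F r) (p : MvPolynomial (Crd r) F) :
    MvPolynomial.eval (crd h) (adjA p) = MvPolynomial.eval (crd fun i => (h i).adjugate) p := by
  have h1 : (MvPolynomial.eval (crd h)).comp (adjA (F := F) (r := r)).toRingHom =
      MvPolynomial.eval (crd fun i => (h i).adjugate) := by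
    refine MvPolynomial.ringHom_ext (fun a => ?_) fun x => ?_
    · show MvPolynomial.eval (crd h) (MvPolynomial.aeval _ (MvPolynomial.C a)) = _
      rw [MvPolynomial.aeval_C, MvPolynomial.eval_C, MvPolynomial.algebraMap_eq,
        MvPolynomial.eval_C]
    · show MvPolynomial.eval (crd h) (MvPolynomial.aeval _ (MvPolynomial.X x)) = _
      rw [MvPolynomial.aeval_X, MvPolynomial.eval_X]
      have h2 := RingHom.map_adjugate (MvPolynomial.eval (crd h)) (adjX F (r := r) x.1)
      have h3 := congrFun (congrFun h2 x.2.1) x.2.2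
      refine Eq.trans h3 ?_
      show ((adjX F (r := r) x.1).map (MvPolynomial.eval (crd h))).adjugate x.2.1 x.2.2 = _
      rw [adj_map]
      rfl
  exact congrArg (fun φ : MvPolynomial (Crd r) F →+* F => φ p) h1

/-- the inverses are given by the adjugate matrices, whose entries are polynomials -/
theorem cl_grp {N : Set (Tup F r)} (hN : Grp N) (hS : ∀ h ∈ N, Sl h) : Grp (Cl N) := by
  refine ⟨sub_cl N hN.one, fun h hh k hk => cl_mul hN hh hk, fun h hh => ?_⟩
  have hsl := cl_sl hS hh
  refine ⟨fun i => (h i).adjugate, fun p hp => ?_, fun i => ?_⟩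
  · rw [← adj_eval]
    refine hh _ fun k hk => ?_
    rw [adj_eval]
    obtain ⟨m, hm, hkm⟩ := hN.inv k hk
    have h1 : (fun i => (k i).adjugate) = m := by
      funext i
      have h2 := Matrix.adjugate_mul (k i)
      rw [hS k hk i, one_smul] at h2
      calc (k i).adjugate = (k i).adjugate * (k i * m i) := by rw [hkm, mul_one]
        _ = m i := by rw [← mul_assoc, h2, one_mul]
    rw [h1]
    exact hp m hm
  · rw [Matrix.mul_adjugate, hsl i, one_smul]

/-- the curve `1 + a X` -/
private noncomputable def adjC (X : Tup F r) : MvPolynomial (Crd r) F →ₐ[F] Polynomial F :=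
  MvPolynomial.aeval fun x => Polynomial.C ((1 : Matrix (Fin (r x.1)) (Fin (r x.1)) F) x.2.1 x.2.2) +
    Polynomial.X * Polynomial.C (X x.1 x.2.1 x.2.2)

private theorem adj_zero (X : Tup F r) (p : MvPolynomial (Crd r) F) :
    (adjC X p).eval 0 = MvPolynomial.eval (crd fun _ => 1) p := by
  have h1 : (Polynomial.evalRingHom 0).comp (adjC X).toRingHom =
      MvPolynomial.eval (crd fun i => (1 : Matrix (Fin (r i)) (Fin (r i)) F)) := by
    refine MvPolynomial.ringHom_ext (fun a => ?_) fun x => ?_
    · show Polynomial.eval 0 (MvPolynomial.aeval _ (MvPolynomial.C a)) = _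
      rw [MvPolynomial.aeval_C, MvPolynomial.eval_C, Polynomial.algebraMap_eq, Polynomial.eval_C]
    · show Polynomial.eval 0 (MvPolynomial.aeval _ (MvPolynomial.X x)) = _
      rw [MvPolynomial.aeval_X, MvPolynomial.eval_X, Polynomial.eval_add, Polynomial.eval_mul,
        Polynomial.eval_X, zero_mul, add_zero, Polynomial.eval_C]
      rfl
  exact congrArg (fun φ : MvPolynomial (Crd r) F →+* F => φ p) h1

private theorem adj_der (X : Tup F r) (p : MvPolynomial (Crd r) F) :
    (adjC X p).derivative.eval 0 = MvPolynomial.eval (crd fun _ => 1) (Dv X p) := by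
  induction p using MvPolynomial.induction_on with
  | C a =>
    rw [MvPolynomial.derivation_C, map_zero]
    show (Polynomial.derivative (MvPolynomial.aeval _ (MvPolynomial.C a))).eval 0 = 0
    rw [MvPolynomial.aeval_C, Polynomial.algebraMap_eq, Polynomial.derivative_C,
      Polynomial.eval_zero]
  | add p q hp hq =>
    rw [map_add, map_add, map_add, Polynomial.eval_add, hp, hq, map_add]
  | mul_X p x hp =>
    have h1 : adjC X (MvPolynomial.X x) =
        Polynomial.C ((1 : Matrix (Fin (r x.1)) (Fin (r x.1)) F) x.2.1 x.2.2) +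
        Polynomial.X * Polynomial.C (X x.1 x.2.1 x.2.2) := MvPolynomial.aeval_X _ _
    have h2 : Dv X (MvPolynomial.X x) =
        ∑ y, MvPolynomial.C (X x.1 y x.2.2) * MvPolynomial.X ⟨x.1, (x.2.1, y)⟩ :=
      MvPolynomial.mkDerivation_X _ _ _
    have h3 : MvPolynomial.eval (crd fun i => (1 : Matrix (Fin (r i)) (Fin (r i)) F))
        (Dv X (MvPolynomial.X x)) = X x.1 x.2.1 x.2.2 := by
      rw [h2, map_sum]
      simp only [map_mul, MvPolynomial.eval_C, MvPolynomial.eval_X, crd, Matrix.one_apply, mul_ite,
        mul_one, mul_zero]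
      rw [Finset.sum_ite_eq, if_pos (Finset.mem_univ _)]
    have h4 : MvPolynomial.eval (crd fun i => (1 : Matrix (Fin (r i)) (Fin (r i)) F))
        (Dv X (p * MvPolynomial.X x)) =
        MvPolynomial.eval (crd fun i => (1 : Matrix (Fin (r i)) (Fin (r i)) F)) p *
          X x.1 x.2.1 x.2.2 + (1 : Matrix (Fin (r x.1)) (Fin (r x.1)) F) x.2.1 x.2.2 *
          MvPolynomial.eval (crd fun i => (1 : Matrix (Fin (r i)) (Fin (r i)) F)) (Dv X p) := by
      rw [Derivation.leibniz, smul_eq_mul, smul_eq_mul, RingHom.map_add, RingHom.map_mul,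
        RingHom.map_mul, h3, MvPolynomial.eval_X]
      rfl
    rw [h4, map_mul (adjC X), Polynomial.derivative_mul, Polynomial.eval_add, Polynomial.eval_mul,
      Polynomial.eval_mul, adj_zero X p, hp, h1]
    simp only [Polynomial.derivative_add, Polynomial.derivative_C, Polynomial.derivative_mul,
      Polynomial.derivative_X, Polynomial.eval_add, Polynomial.eval_mul, Polynomial.eval_X,
      Polynomial.eval_C, Polynomial.eval_one, Polynomial.eval_zero]
    ring

/-- the tangent vectors of a set of matrices of determinant one have trace zero -/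
theorem tan_tr {N : Set (Tup F r)} (hS : ∀ h ∈ N, Sl h) {X : Tup F r} (hX : X ∈ Tan N)
    (i : Fin l) : (X i).trace = 0 := by
  have h1 := hX _ (adj_van hS i)
  rw [← adj_der, map_sub, map_one, Polynomial.derivative_sub, Polynomial.derivative_one,
    sub_zero] at h1
  have h2 : adjC X (adjX F i).det = (1 + (Polynomial.X : Polynomial F) • (X i).map Polynomial.C).det := by
    rw [AlgHom.map_det]
    congr 1
    ext1 y z
    show adjC X (MvPolynomial.X _) = _
    refine (MvPolynomial.aeval_X _ _).trans ?_
    rw [Matrix.add_apply, Matrix.smul_apply, Matrix.map_apply, smul_eq_mul, Matrix.one_apply,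
      Matrix.one_apply]
    split_ifs
    · rw [Polynomial.C_1]
    · rw [Polynomial.C_0]
  rw [h2, Matrix.derivative_det_one_add_X_smul] at h1
  exact h1

end Pool.Agent.MUG
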