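import Pool.Agent.MUG.FinA

/-!
# MUG: a group with tangent space zero is finite, part B

Translate the polynomial `q` of `fin_iso` to all elements of `N`. If `N` is infinite, the ideals of the polynomials
which vanish on `{g_k : k ≥ n}`, for distinct `g_0, g_1, …` in `N`, are strictly increasing; but the polynomial ring
is noetherian.
-/

set_option linter.unusedSectionVars false
set_option linter.unusedVariables false

namespace Pool.Agent.MUG

open Pool.Agent.MUW

universe w

variable {F : Type w} [Field F] {l : ℕ} {r : Fin l → ℕ}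

/-- the ideal of the polynomials which vanish on `s k`, `k ≥ n` -/
private def FinB_I (s : ℕ → Tup F r) (n : ℕ) : Ideal (MvPolynomial (Crd r) F) where
  carrier := {p | ∀ k, n ≤ k → MvPolynomial.eval (crd (s k)) p = 0}
  zero_mem' := fun k _ => map_zero _
  add_mem' := fun {p q} hp hq k hk => by rw [map_add, hp k hk, hq k hk, add_zero]
  smul_mem' := fun c p hp k hk => by rw [smul_eq_mul, map_mul, hp k hk, mul_zero]

private theorem FinB_mem (s : ℕ → Tup F r) (n : ℕ) (p : MvPolynomial (Crd r) F) :
    p ∈ FinB_I s n ↔ ∀ k, n ≤ k → MvPolynomial.eval (crd (s k)) p = 0 := Iff.rfl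

private theorem FinB_trans {N : Set (Tup F r)} (hN : Grp N) (h0 : ∀ X ∈ Tan N, X = 0)
    (g : Tup F r) (hg : g ∈ N) :
    ∃ q : MvPolynomial (Crd r) F, MvPolynomial.eval (crd g) q = 1 ∧
      ∀ h ∈ N, h ≠ g → MvPolynomial.eval (crd h) q = 0 := by
  obtain ⟨q, h1, h2⟩ := fin_iso hN.one h0
  obtain ⟨k, hk, hgk⟩ := hN.inv g hg
  have hkg : ∀ i, k i * g i = 1 := fun i => mul_eq_one_comm.mp (hgk i)
  refine ⟨Mv k (fun _ => 1) q, ?_, fun h hh hne => ?_⟩
  · rw [eval_mv]
    have e : (fun i => k i * g i * (1 : Matrix (Fin (r i)) (Fin (r i)) F)) = fun _ => 1 := by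
      funext i
      rw [mul_one, hkg i]
    rw [e]
    exact h1
  · rw [eval_mv]
    have e : (fun i => k i * h i * (1 : Matrix (Fin (r i)) (Fin (r i)) F)) = fun i => k i * h i := by
      funext i
      rw [mul_one]
    rw [e]
    refine h2 _ (hN.mul k hk h hh) fun e1 => hne ?_
    funext i
    have e2 : k i * h i = 1 := congrFun e1 i
    calc h i = (g i * k i) * h i := by rw [hgk i, one_mul]
      _ = g i * (k i * h i) := mul_assoc _ _ _
      _ = g i := by rw [e2, mul_one]

theorem fin_of_tan {N : Set (Tup F r)} (hN : Grp N) (h0 : ∀ X ∈ Tan N, X = 0) : N.Finite := by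
  by_contra hinf
  have hinf' : N.Infinite := hinf
  let e := hinf'.natEmbedding N
  let s : ℕ → Tup F r := fun n => (e n : Tup F r)
  have hs : ∀ n, s n ∈ N := fun n => (e n).2
  have hinj : Function.Injective s := fun a b hab => e.injective (Subtype.ext hab)
  have hmono : Monotone (FinB_I s) := fun a b hab p hp k hk => hp k (hab.trans hk)
  obtain ⟨n, hn⟩ := monotone_stabilizes_iff_noetherian.mpr
    (inferInstance : IsNoetherian (MvPolynomial (Crd r) F) (MvPolynomial (Crd r) F))
    ⟨FinB_I s, hmono⟩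
  have hn1 : FinB_I s n = FinB_I s (n + 1) := hn (n + 1) (Nat.le_succ n)
  obtain ⟨q, h1, h2⟩ := FinB_trans hN h0 (s n) (hs n)
  have hq : q ∈ FinB_I s (n + 1) := by
    rw [FinB_mem]
    intro k hk
    refine h2 _ (hs k) fun hkn => ?_
    have := hinj hkn
    omega
  rw [← hn1, FinB_mem] at hq
  have := hq n le_rfl
  rw [h1] at this
  exact one_ne_zero this

end Pool.Agent.MUG
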