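import Pool.Agent.MUG.Tan

/-!
# MUG: the exponential of a tangent vector of square zero

For a polynomial `p` which vanishes on `N` all the derivatives at `0` of the polynomial
`a ↦ p(1 + a X)` are zero (`dv_curve`, `dv_van`), so it is zero in characteristic zero.
-/


namespace Pool.Agent.MUG

open Pool.Agent.MUW

universe w

variable {F : Type w} [Field F] {l : ℕ} {r : Fin l → ℕ}

/-- the value at `0` of the polynomial `a ↦ p(1 + a X)` is zero -/
private theorem exp36_zero {N : Set (Tup F r)} (hN : Grp N) {X : Tup F r}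
    {p : MvPolynomial (Crd r) F} (hp : Van N p) {q : Polynomial F}
    (hq : ∀ a : F, q.eval a = MvPolynomial.eval (crd fun i => 1 + a • X i) p) :
    q.eval 0 = 0 := by
  rw [hq 0]
  have h : (fun i => 1 + (0 : F) • X i) = fun _ => 1 := by
    funext i
    rw [zero_smul, add_zero]
  rw [h]
  exact hp _ hN.one

/-- the polynomial `a ↦ p(1 + a X)` is zero, by induction on its degree -/
private theorem exp36_poly [CharZero F] {N : Set (Tup F r)} (hN : Grp N) {X : Tup F r}
    (hX : X ∈ Tan N) (hXX : ∀ i, X i * X i = 0) : ∀ (n : ℕ) (p : MvPolynomial (Crd r) F),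
    Van N p → ∀ q : Polynomial F,
      (∀ a : F, q.eval a = MvPolynomial.eval (crd fun i => 1 + a • X i) p) →
      q.natDegree ≤ n → q = 0 := by
  intro n
  induction n with
  | zero =>
    intro p hp q hq hn
    have h0 := exp36_zero hN hp hq
    rw [Polynomial.eq_C_of_natDegree_le_zero hn, Polynomial.eval_C] at h0
    rw [Polynomial.eq_C_of_natDegree_le_zero hn, h0, Polynomial.C_0]
  | succ n ih =>
    intro p hp q hq hn
    obtain ⟨q', h1, _, h3⟩ := dv_curve X p
    have hqq : q = q' := Polynomial.funext fun a => by rw [hq a, h1 a]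
    have hd : q.derivative = 0 := by
      refine ih (Dv X p) (dv_van hN hX hp) q.derivative (fun a => ?_) ?_
      · rw [hqq]
        exact h3 hXX a
      · have h := Polynomial.natDegree_derivative_le q
        omega
    have h0 := exp36_zero hN hp hq
    have hc := Polynomial.derivative_eq_zero.1 hd
    rw [Polynomial.eq_C_of_natDegree_eq_zero hc, Polynomial.eval_C] at h0
    rw [Polynomial.eq_C_of_natDegree_eq_zero hc, h0, Polynomial.C_0]

theorem exp_mem [CharZero F] {N : Set (Tup F r)} (hN : Grp N) {X : Tup F r} (hX : X ∈ Tan N)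
    (hXX : ∀ i, X i * X i = 0) (a : F) : (fun i => 1 + a • X i) ∈ Cl N := by
  intro p hp
  obtain ⟨q, h1, _, _⟩ := dv_curve X p
  have h := exp36_poly hN hX hXX q.natDegree p hp q h1 le_rfl
  rw [← h1 a, h, Polynomial.eval_zero]

end Pool.Agent.MUG
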