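import Pool.Agent.MUG.Full
import Mathlib.LinearAlgebra.Eigenspace.Charpoly

/-!
# MUG: several factors

Let `i` be a factor on which `g` is not zero. By induction on `J ⊆ {k ≠ i}`: the elements of `g` which are zero on `J`
are not all zero on `i`. Step from `J` to `J ∪ {k}`: by `full` they give all matrices of trace zero on the factor `i`;
take `s`, `t`, `Z` from `sep i k` and apply `p(Ad s)`, `p` the characteristic polynomial of `Ad (s k)`, to an `X` with
`X_i = Z`: `p(Ad s) X` is `p(t) Z ≠ 0` on the factor `i`, and `0` on the factor `k`. For `J = {k ≠ i}` apply `full`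
again.
-/

set_option linter.unusedSectionVars false
set_option linter.unusedVariables false

namespace Pool.Agent.MUG

open Pool.Agent.MUW

universe w

variable {F : Type w} [Field F] {l : ℕ} {r : Fin l → ℕ}

section one

variable {n : ℕ}

/-- `Ad s` as a linear map -/
private noncomputable def ad (s : Matrix (Fin n) (Fin n) F) :
    Module.End F (Matrix (Fin n) (Fin n) F) where
  toFun X := s * X * s⁻¹
  map_add' X Y := by rw [mul_add, add_mul]
  map_smul' c X := by rw [Matrix.mul_smul, Matrix.smul_mul]; rfl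

private lemma ad_apply (s X : Matrix (Fin n) (Fin n) F) : ad s X = s * X * s⁻¹ := rfl

/-- a map which intertwines `f` and `g` intertwines the polynomials in `f` and `g` -/
private lemma prd_aeval {V W : Type*} [AddCommGroup V] [Module F V] [AddCommGroup W] [Module F W]
    (f : Module.End F V) (g : Module.End F W) (L : V →ₗ[F] W) (h : ∀ x, L (f x) = g (L x))
    (p : Polynomial F) (x : V) : L (Polynomial.aeval f p x) = Polynomial.aeval g p (L x) := by
  induction p using Polynomial.induction_on with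
  | C a => simp [Polynomial.aeval_C, Module.algebraMap_end_apply]
  | add p q hp hq => rw [map_add, map_add, LinearMap.add_apply, LinearMap.add_apply, map_add, hp, hq]
  | monomial m a _ =>
    have hpow : ∀ (m : ℕ) (x : V), L ((f ^ m) x) = (g ^ m) (L x) := by
      intro m
      induction m with
      | zero => intro x; rfl
      | succ m ih =>
        intro x
        rw [pow_succ', pow_succ', Module.End.mul_apply, Module.End.mul_apply, h, ih]
    rw [map_mul, map_mul, Polynomial.aeval_C, Polynomial.aeval_C, map_pow, map_pow,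
      Polynomial.aeval_X, Polynomial.aeval_X, Module.End.mul_apply, Module.End.mul_apply,
      Module.algebraMap_end_apply, Module.algebraMap_end_apply, map_smul, hpow]

end one

/-- the elements of `g` which are zero on `J` -/
private def prdSub (g : Submodule F (Tup F r)) (J : Finset (Fin l)) :
    Submodule F (Tup F r) where
  carrier := {X | X ∈ g ∧ ∀ k ∈ J, X k = 0}
  zero_mem' := ⟨g.zero_mem, fun _ _ => rfl⟩
  add_mem' := by
    rintro X Y ⟨hX, hX'⟩ ⟨hY, hY'⟩
    exact ⟨g.add_mem hX hY, fun k hk => by rw [Pi.add_apply, hX' k hk, hY' k hk, add_zero]⟩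
  smul_mem' := by
    rintro c X ⟨hX, hX'⟩
    exact ⟨g.smul_mem c hX, fun k hk => by rw [Pi.smul_apply, hX' k hk, smul_zero]⟩

private lemma prd_mem {g : Submodule F (Tup F r)} {J : Finset (Fin l)} {X : Tup F r} :
    X ∈ prdSub g J ↔ X ∈ g ∧ ∀ k ∈ J, X k = 0 := Iff.rfl

private lemma prd_surj [CharZero F] (g : Submodule F (Tup F r))
    (br : ∀ X ∈ g, ∀ Y ∈ g, (fun i => X i * Y i - Y i * X i) ∈ g)
    (tr : ∀ X ∈ g, ∀ i, (X i).trace = 0) (T : Set (Tup F r))
    (unit : ∀ s ∈ T, ∀ i, IsUnit (s i).det)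
    (norm : ∀ s ∈ T, ∀ X ∈ g, (fun i => s i * X i * (s i)⁻¹) ∈ g)
    (irr : ∀ (i : Fin l) (U : Submodule F (Fin (r i) → F)),
      (∀ s ∈ T, (∃ t, t ≠ 1 ∧ t ≠ -1 ∧ IsRf t (s i)) → ∀ u ∈ U, (s i).mulVec u ∈ U) →
        U = ⊥ ∨ U = ⊤)
    (i : Fin l) (J : Finset (Fin l)) (hi : ∃ X ∈ prdSub g J, X i ≠ 0)
    (A : Matrix (Fin (r i)) (Fin (r i)) F) (hA : A.trace = 0) : ∃ X ∈ prdSub g J, X i = A := by
  have key : A ∈ (prdSub g J).map
      (LinearMap.proj i : Tup F r →ₗ[F] Matrix (Fin (r i)) (Fin (r i)) F) := by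
    refine full _ ?_ ?_ ?_
      {m | ∃ s ∈ T, s i = m ∧ ∃ t, t ≠ 1 ∧ t ≠ -1 ∧ IsRf t (s i)} ?_ ?_ A hA
    · rintro _ ⟨X, hX, rfl⟩ _ ⟨Y, hY, rfl⟩
      refine ⟨fun i => X i * Y i - Y i * X i, ⟨br X hX.1 Y hY.1, fun k hk => ?_⟩, rfl⟩
      show X k * Y k - Y k * X k = 0
      rw [hX.2 k hk, zero_mul, mul_zero, sub_zero]
    · rintro _ ⟨X, hX, rfl⟩
      exact tr X hX.1 i
    · obtain ⟨X, hX, hXi⟩ := hi
      exact ⟨X i, ⟨X, hX, rfl⟩, hXi⟩
    · rintro _ ⟨s, hs, rfl, t, -, h2, h3⟩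
      refine ⟨⟨t, rf_ne (unit s hs i) h3, h2, h3⟩, ?_⟩
      rintro _ ⟨X, hX, rfl⟩
      refine ⟨fun i => s i * X i * (s i)⁻¹, ⟨norm s hs X hX.1, fun k hk => ?_⟩, rfl⟩
      show s k * X k * (s k)⁻¹ = 0
      rw [hX.2 k hk, mul_zero, zero_mul]
    · intro U hU
      exact irr i U fun s hs h u hu => hU (s i) ⟨s, hs, rfl, h⟩ u hu
  obtain ⟨X, hX, hXA⟩ := key
  exact ⟨X, hX, hXA⟩

private lemma prd_step [CharZero F] (g : Submodule F (Tup F r))
    (br : ∀ X ∈ g, ∀ Y ∈ g, (fun i => X i * Y i - Y i * X i) ∈ g)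
    (tr : ∀ X ∈ g, ∀ i, (X i).trace = 0) (T : Set (Tup F r))
    (unit : ∀ s ∈ T, ∀ i, IsUnit (s i).det)
    (norm : ∀ s ∈ T, ∀ X ∈ g, (fun i => s i * X i * (s i)⁻¹) ∈ g)
    (irr : ∀ (i : Fin l) (U : Submodule F (Fin (r i) → F)),
      (∀ s ∈ T, (∃ t, t ≠ 1 ∧ t ≠ -1 ∧ IsRf t (s i)) → ∀ u ∈ U, (s i).mulVec u ∈ U) →
        U = ⊥ ∨ U = ⊤)
    (sep : ∀ i k, i ≠ k → ∃ s ∈ T, ∃ t : F, (∃ Z, Z ≠ 0 ∧ s i * Z = t • (Z * s i)) ∧
      ∀ Z, s k * Z = t • (Z * s k) → Z = 0)
    (i : Fin l) (J : Finset (Fin l)) (hi : ∃ X ∈ prdSub g J, X i ≠ 0) (k : Fin l) (hk : i ≠ k) :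
    ∃ X ∈ prdSub g (insert k J), X i ≠ 0 := by
  obtain ⟨s, hs, t, ⟨Z, hZ0, hZ⟩, h3⟩ := sep i k hk
  obtain ⟨X0, hX0, hX0i⟩ := hi
  by_cases h1 : t = 1
  · -- the factor `k` is zero
    have h4 : (1 : Matrix (Fin (r k)) (Fin (r k)) F) = 0 := by
      refine h3 1 ?_
      rw [h1, one_smul, mul_one, one_mul]
    refine ⟨X0, ⟨hX0.1, fun j hj => ?_⟩, hX0i⟩
    rcases Finset.mem_insert.mp hj with rfl | hj
    · rw [← mul_one (X0 j), h4, mul_zero]
    · exact hX0.2 j hj
  have hZt : Z.trace = 0 := by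
    have h4 : s i * Z * (s i)⁻¹ = t • Z := by
      rw [hZ, Matrix.smul_mul, mul_assoc, Matrix.mul_nonsing_inv _ (unit s hs i), mul_one]
    have h5 : (s i * Z * (s i)⁻¹).trace = Z.trace := by
      rw [Matrix.trace_mul_comm, ← mul_assoc, Matrix.nonsing_inv_mul _ (unit s hs i), one_mul]
    rw [h4, Matrix.trace_smul, smul_eq_mul] at h5
    have h6 : (t - 1) * Z.trace = 0 := by linear_combination h5
    exact (mul_eq_zero.mp h6).resolve_left (sub_ne_zero.mpr h1)
  obtain ⟨X, hX, hXZ⟩ := prd_surj g br tr T unit norm irr i J ⟨X0, hX0, hX0i⟩ Z hZt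
  set p : Polynomial F := (ad (s k)).charpoly with hp
  have hpt : p.eval t ≠ 0 := by
    intro hr
    have hev : (ad (s k)).HasEigenvalue t :=
      (Module.End.hasEigenvalue_iff_isRoot_charpoly _ _).2 hr
    obtain ⟨Z, hZ⟩ := hev.exists_hasEigenvector
    refine hZ.2 (h3 Z ?_)
    have hZ1 : s k * Z * (s k)⁻¹ = t • Z := hZ.apply_eq_smul
    calc s k * Z = s k * Z * ((s k)⁻¹ * s k) := by
          rw [Matrix.nonsing_inv_mul _ (unit s hs k), mul_one]
      _ = t • (Z * s k) := by rw [← mul_assoc, hZ1, Matrix.smul_mul]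
  let f : Module.End F (Tup F r) :=
    { toFun := fun Z j => s j * Z j * (s j)⁻¹
      map_add' := fun Y Z => by
        funext j
        show s j * (Y j + Z j) * (s j)⁻¹ = _
        rw [mul_add, add_mul]; rfl
      map_smul' := fun c Z => by
        funext j
        show s j * (c • Z j) * (s j)⁻¹ = _
        rw [Matrix.mul_smul, Matrix.smul_mul]; rfl }
  have hf : ∀ Z j, f Z j = s j * Z j * (s j)⁻¹ := fun Z j => rfl
  have hcomp : ∀ (j : Fin l) (Z : Tup F r),
      (Polynomial.aeval f p Z) j = Polynomial.aeval (ad (s j)) p (Z j) := fun j Z =>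
    prd_aeval f (ad (s j)) (LinearMap.proj j : Tup F r →ₗ[F] Matrix (Fin (r j)) (Fin (r j)) F)
      (fun x => rfl) p Z
  have hmem : ∀ (q : Polynomial F) (Z : Tup F r), Z ∈ g → Polynomial.aeval f q Z ∈ g := by
    intro q
    have hpow : ∀ (m : ℕ) (Z : Tup F r), Z ∈ g → (f ^ m) Z ∈ g := by
      intro m
      induction m with
      | zero => intro Z hZ; exact hZ
      | succ m ih =>
        intro Z hZ
        rw [pow_succ', Module.End.mul_apply]
        exact norm s hs _ (ih Z hZ)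
    induction q using Polynomial.induction_on with
    | C a =>
      intro Z hZ
      rw [Polynomial.aeval_C, Module.algebraMap_end_apply]
      exact g.smul_mem a hZ
    | add p q hp hq =>
      intro Z hZ
      rw [map_add, LinearMap.add_apply]
      exact g.add_mem (hp Z hZ) (hq Z hZ)
    | monomial m a _ =>
      intro Z hZ
      rw [map_mul, Polynomial.aeval_C, map_pow, Polynomial.aeval_X, Module.End.mul_apply,
        Module.algebraMap_end_apply]
      exact g.smul_mem a (hpow _ Z hZ)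
  refine ⟨Polynomial.aeval f p X, ⟨hmem p X hX.1, ?_⟩, ?_⟩
  · intro j hj
    rcases Finset.mem_insert.mp hj with rfl | hj
    · rw [hcomp, hp, LinearMap.aeval_self_charpoly, LinearMap.zero_apply]
    · rw [hcomp, hX.2 j hj, map_zero]
  · intro h
    have hev : (ad (s i)).HasEigenvector t Z := by
      refine ⟨Module.End.mem_eigenspace_iff.2 ?_, hZ0⟩
      rw [ad_apply, hZ, Matrix.smul_mul, mul_assoc, Matrix.mul_nonsing_inv _ (unit s hs i),
        mul_one]
    rw [hcomp, hXZ, Module.End.aeval_apply_of_hasEigenvector hev] at h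
    exact smul_ne_zero hpt hZ0 h

/-- a Lie algebra of tuples, normalised by `T`, contains all matrices of trace zero on the factor `i`, if it is not
zero on this factor -/
theorem prod_full [CharZero F] (g : Submodule F (Tup F r))
    (br : ∀ X ∈ g, ∀ Y ∈ g, (fun i => X i * Y i - Y i * X i) ∈ g)
    (tr : ∀ X ∈ g, ∀ i, (X i).trace = 0) (T : Set (Tup F r))
    (unit : ∀ s ∈ T, ∀ i, IsUnit (s i).det)
    (norm : ∀ s ∈ T, ∀ X ∈ g, (fun i => s i * X i * (s i)⁻¹) ∈ g)
    (irr : ∀ (i : Fin l) (U : Submodule F (Fin (r i) → F)),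
      (∀ s ∈ T, (∃ t, t ≠ 1 ∧ t ≠ -1 ∧ IsRf t (s i)) → ∀ u ∈ U, (s i).mulVec u ∈ U) →
        U = ⊥ ∨ U = ⊤)
    (sep : ∀ i k, i ≠ k → ∃ s ∈ T, ∃ t : F, (∃ Z, Z ≠ 0 ∧ s i * Z = t • (Z * s i)) ∧
      ∀ Z, s k * Z = t • (Z * s k) → Z = 0)
    (i : Fin l) (hi : ∃ X ∈ g, X i ≠ 0) (A : Matrix (Fin (r i)) (Fin (r i)) F)
    (hA : A.trace = 0) : Function.update (0 : Tup F r) i A ∈ g := by
  classical
  have hJ : ∀ J : Finset (Fin l), i ∉ J → ∃ X ∈ prdSub g J, X i ≠ 0 := by
    intro J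
    induction J using Finset.induction_on with
    | empty =>
      intro _
      obtain ⟨X, hX, hXi⟩ := hi
      exact ⟨X, ⟨hX, fun k hk => absurd hk (Finset.notMem_empty k)⟩, hXi⟩
    | insert k J _ ih =>
      intro hiJ
      rw [Finset.mem_insert, not_or] at hiJ
      exact prd_step g br tr T unit norm irr sep i J (ih hiJ.2) k hiJ.1
  obtain ⟨X, hX, hXA⟩ := prd_surj g br tr T unit norm irr i (Finset.univ.erase i)
    (hJ _ (Finset.notMem_erase i _)) A hA
  have e : Function.update (0 : Tup F r) i A = X := by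
    funext k
    by_cases hk : k = i
    · subst hk
      rw [Function.update_self, hXA]
    · rw [Function.update_of_ne hk, hX.2 k (Finset.mem_erase.mpr ⟨hk, Finset.mem_univ k⟩)]
      rfl
  rw [e]
  exact hX.1

end Pool.Agent.MUG
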