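import Pool.Agent.MUG.Mat

/-!
# MUG: homologies are invertible
-/

set_option linter.unusedSectionVars false
set_option linter.unusedVariables false

namespace Pool.Agent.MUG

open Pool.Agent.MUW

universe w

variable {F : Type w} [Field F] {n : ℕ}

private theorem h23_proj {v φ : Fin n → F} (hv : φ ⬝ᵥ v = 1) :
    Matrix.vecMulVec v φ * Matrix.vecMulVec v φ = Matrix.vecMulVec v φ := by
  ext i j
  have h1 : ∑ x, φ x * v x = 1 := hv
  rw [Matrix.mul_apply]
  simp only [Matrix.vecMulVec_apply]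
  calc ∑ x, v i * φ x * (v x * φ j) = (v i * φ j) * ∑ x, φ x * v x := by
        rw [Finset.mul_sum]
        exact Finset.sum_congr rfl fun x _ => by ring
    _ = v i * φ j := by rw [h1, mul_one]

private theorem h23_mul {t c : F} (ht : t ≠ 0) (hc : c ≠ 0) {v φ : Fin n → F} (hv : φ ⬝ᵥ v = 1) :
    (c • (1 + (t - 1) • Matrix.vecMulVec v φ)) *
      (c⁻¹ • (1 + (t⁻¹ - 1) • Matrix.vecMulVec v φ)) = 1 := by
  have h1 := h23_proj hv
  generalize Matrix.vecMulVec v φ = P at h1 ⊢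
  have h2 : (1 + (t - 1) • P) * (1 + (t⁻¹ - 1) • P)
      = 1 + ((t - 1) + (t⁻¹ - 1) + (t - 1) * (t⁻¹ - 1)) • P := by
    rw [mul_add, add_mul, add_mul, mul_one, one_mul, mul_one, smul_mul_smul_comm, h1,
      add_smul, add_smul]
    abel
  have h3 : (t - 1) + (t⁻¹ - 1) + (t - 1) * (t⁻¹ - 1) = 0 := by
    field_simp
    ring
  rw [smul_mul_smul_comm, h2, h3, zero_smul, add_zero, mul_inv_cancel₀ hc, one_smul]

theorem rf_unit {t : F} (ht : t ≠ 0) {s : Matrix (Fin n) (Fin n) F} (hs : IsRf t s) :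
    IsUnit s.det := by
  obtain ⟨c, v, φ, hc, hv, rfl⟩ := hs
  exact Matrix.isUnit_det_of_right_inverse (h23_mul ht hc hv)

theorem rf_inv {t c : F} (ht : t ≠ 0) (hc : c ≠ 0) {v φ : Fin n → F} (hv : φ ⬝ᵥ v = 1) :
    (c • (1 + (t - 1) • Matrix.vecMulVec v φ))⁻¹ =
      c⁻¹ • (1 + (t⁻¹ - 1) • Matrix.vecMulVec v φ) :=
  Matrix.inv_eq_right_inv (h23_mul ht hc hv)

theorem rf_ne {t : F} {s : Matrix (Fin n) (Fin n) F} (hu : IsUnit s.det) (hs : IsRf t s) :
    t ≠ 0 := by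
  rintro rfl
  obtain ⟨c, v, φ, hc, hv, rfl⟩ := hs
  have h1 : (c • (1 + ((0 : F) - 1) • Matrix.vecMulVec v φ)).mulVec v = 0 := by
    have h2 : (Matrix.vecMulVec v φ).mulVec v = v := by
      rw [Matrix.vecMulVec_mulVec, hv]
      ext i
      simp
    rw [Matrix.smul_mulVec, Matrix.add_mulVec, Matrix.one_mulVec, Matrix.smul_mulVec, h2]
    simp
  have h3 : v = 0 := by
    have h4 := congrArg (fun w => (c • (1 + ((0 : F) - 1) • Matrix.vecMulVec v φ))⁻¹.mulVec w) h1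
    simp only [Matrix.mulVec_mulVec, Matrix.mulVec_zero] at h4
    rwa [Matrix.nonsing_inv_mul _ hu, Matrix.one_mulVec] at h4
  rw [h3, dotProduct_zero] at hv
  exact zero_ne_one hv

end Pool.Agent.MUG
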