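import Pool.Agent.MUG.SlnA

/-!
# MUG: transvections generate the product of the `SL`

`sln_one` for each factor, and induction over the set of factors.
-/

set_option linter.unusedSectionVars false
set_option linter.unusedVariables false

namespace Pool.Agent.MUG

open Pool.Agent.MUW

universe w

variable {F : Type w} [Field F] {l : ℕ} {r : Fin l → ℕ}

private theorem slnb_one (M : Set (Tup F r)) (one : (fun _ => 1) ∈ M)
    (mul : ∀ h ∈ M, ∀ k ∈ M, (fun i => h i * k i) ∈ M) (i : Fin l)
    (tv : ∀ x y : Fin (r i), x ≠ y → ∀ a : F,
      Function.update (fun _ => 1 : Tup F r) i (Matrix.transvection x y a) ∈ M)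
    (A : Matrix (Fin (r i)) (Fin (r i)) F) (hA : A.det = 1) :
    Function.update (fun _ => 1 : Tup F r) i A ∈ M := by
  refine sln_one {A | Function.update (fun _ => 1 : Tup F r) i A ∈ M} ?_ ?_ ?_ A hA
  · change Function.update (fun _ => 1 : Tup F r) i 1 ∈ M
    have h1 : Function.update (fun _ => 1 : Tup F r) i 1 = fun _ => 1 := by
      funext j
      by_cases hj : j = i
      · subst hj
        rw [Function.update_self]
      · rw [Function.update_of_ne hj]
    rw [h1]
    exact one
  · intro B hB C hC
    change Function.update (fun _ => 1 : Tup F r) i (B * C) ∈ M
    have h1 : Function.update (fun _ => 1 : Tup F r) i (B * C) =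
        fun j => Function.update (fun _ => 1 : Tup F r) i B j *
          Function.update (fun _ => 1 : Tup F r) i C j := by
      funext j
      by_cases hj : j = i
      · subst hj
        rw [Function.update_self, Function.update_self, Function.update_self]
      · rw [Function.update_of_ne hj, Function.update_of_ne hj, Function.update_of_ne hj, mul_one]
    rw [h1]
    exact mul _ hB _ hC
  · intro x y hxy a
    exact tv x y hxy a

/-- `J`: the factors with transvections -/
theorem sln_gen (M : Set (Tup F r)) (one : (fun _ => 1) ∈ M)
    (mul : ∀ h ∈ M, ∀ k ∈ M, (fun i => h i * k i) ∈ M) (J : Fin l → Prop)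
    (tv : ∀ i, J i → ∀ x y : Fin (r i), x ≠ y → ∀ a : F,
      Function.update (fun _ => 1 : Tup F r) i (Matrix.transvection x y a) ∈ M)
    (h : Tup F r) (hh : Sl h) (h1 : ∀ i, ¬ J i → h i = 1) : h ∈ M := by
  classical
  have key : ∀ s : Finset (Fin l), (fun j => if j ∈ s then h j else 1 : Tup F r) ∈ M := by
    intro s
    induction s using Finset.induction_on with
    | empty =>
      have h2 : (fun j => if j ∈ (∅ : Finset (Fin l)) then h j else 1 : Tup F r) = fun _ => 1 := by
        funext j
        simp
      rw [h2]
      exact one
    | insert i s hi ih =>
      have h3 : Function.update (fun _ => 1 : Tup F r) i (h i) ∈ M := by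
        by_cases hJ : J i
        · exact slnb_one M one mul i (tv i hJ) (h i) (hh i)
        · rw [h1 i hJ]
          have h4 : Function.update (fun _ => 1 : Tup F r) i 1 = fun _ => 1 := by
            funext j
            by_cases hj : j = i
            · subst hj
              rw [Function.update_self]
            · rw [Function.update_of_ne hj]
          rw [h4]
          exact one
      have h2 : (fun j => if j ∈ insert i s then h j else 1 : Tup F r) =
          fun j => (if j ∈ s then h j else 1) * Function.update (fun _ => 1 : Tup F r) i (h i) j := by
        funext j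
        by_cases hj : j = i
        · subst hj
          rw [Function.update_self, if_pos (Finset.mem_insert_self _ _), if_neg hi, one_mul]
        · rw [Function.update_of_ne hj, mul_one]
          simp [Finset.mem_insert, hj]
      rw [h2]
      exact mul _ ih _ h3
  have h2 := key Finset.univ
  have h3 : (fun j => if j ∈ (Finset.univ : Finset (Fin l)) then h j else 1 : Tup F r) = h := by
    funext j
    simp
  rwa [h3] at h2

end Pool.Agent.MUG
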