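import Pool.Agent.KTT.Main

/-!
# MUG: varieties dominated by an open part of `Y`

`KTT.covered_tate`, without linearity of `act`, `up` and `down`.
-/

namespace Pool.Agent.MUG

open CategoryTheory MonoidalCategory Pool.Agent.KTT

universe v u w w'

theorem covered {C : Type u} [Category.{v} C] [MonoidalCategory C]
    {F : Type w} [Field F] (H : C ⥤ ModuleCat.{w} F) {G : Type w'} [Group G] (ρ : G →* Aut H)
    [H.Monoidal] (Y : C) (hT : fixed H ρ Y ≤ alg H Y) (hS : Semisimple H ρ Y)
    (V' : Type w) [AddCommGroup V'] [Module F V'] (act : G → V' → V')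
    (res : H.obj Y →ₗ[F] V') (res_act : ∀ g v, res (((ρ g).hom.app Y).hom v) = act g (res v))
    (weights : ∀ v, (∀ g, act g v = v) → v ∈ LinearMap.range res)
    (V : Type w) [AddCommGroup V] [Module F V] (tate cyc : Submodule F V)
    (up : V → V') (down : V' → V) (deg : F) (up_tate : ∀ v ∈ tate, ∀ g, act g (up v) = up v)
    (down_alg : ∀ v ∈ alg H Y, down (res v) ∈ cyc) (deg_ne : deg ≠ 0)
    (down_up : ∀ v ∈ tate, down (up v) = deg • v) : tate ≤ cyc := by
  intro v hv
  obtain ⟨y, hy⟩ := weights _ (up_tate v hv)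
  have hK : Stable H ρ Y (LinearMap.ker res) := by
    intro g w hw
    rw [LinearMap.mem_ker] at hw ⊢
    have h0 := res_act g (w + y)
    have h1 := res_act g y
    rw [map_add, map_add, map_add, hw, zero_add, ← h1] at h0
    exact add_eq_right.1 h0
  obtain ⟨K', hK', hc⟩ := hS _ hK
  have hy' : y ∈ LinearMap.ker res ⊔ K' := by rw [hc.sup_eq_top]; trivial
  obtain ⟨a, ha, z, hz, rfl⟩ := Submodule.mem_sup.1 hy'
  rw [map_add, LinearMap.mem_ker.1 ha, zero_add] at hy
  have hzf : z ∈ fixed H ρ Y := by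
    intro g
    have h1 : ((ρ g).hom.app Y).hom z - z ∈ LinearMap.ker res := by
      rw [LinearMap.mem_ker, map_sub, res_act, hy, up_tate v hv, sub_self]
    have h2 := (Submodule.disjoint_def.1 hc.disjoint) _ h1 (sub_mem (hK' g z hz) hz)
    exact sub_eq_zero.1 h2
  have h3 := down_alg z (hT hzf)
  rw [hy, down_up v hv] at h3
  have h4 := cyc.smul_mem deg⁻¹ h3
  rwa [smul_smul, inv_mul_cancel₀ deg_ne, one_smul] at h4

end Pool.Agent.MUG
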