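import Pool.Agent.MUW.Mat

/-!
# MUG: big monodromy, matrix definitions

A group `N` of tuples of matrices of determinant one, and tuples of matrices which normalise its
Zariski closure, enough of them with components which are scalars times homologies `1 + (t - 1) e`, `e` a projection
of rank one.
-/

namespace Pool.Agent.MUG

open Pool.Agent.MUW

universe w

variable {F : Type w} [Field F] {l : ℕ} {r : Fin l → ℕ}

/-- `p` vanishes on `N`. -/
def Van (N : Set (Tup F r)) (p : MvPolynomial (Crd r) F) : Prop :=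
  ∀ h ∈ N, MvPolynomial.eval (crd h) p = 0

/-- The Zariski closure of `N`. -/
def Cl (N : Set (Tup F r)) : Set (Tup F r) :=
  {h | ∀ p, Van N p → MvPolynomial.eval (crd h) p = 0}

/-- `s = c (1 + (t - 1) e)`, `c ≠ 0`, `e` a projection of rank one. -/
def IsRf {n : ℕ} (t : F) (s : Matrix (Fin n) (Fin n) F) : Prop :=
  ∃ (c : F) (v φ : Fin n → F), c ≠ 0 ∧ φ ⬝ᵥ v = 1 ∧ s = c • (1 + (t - 1) • Matrix.vecMulVec v φ)

/-- `T` is a set of tuples of invertible matrices which normalise the Zariski closure of `N`; no subspace is stable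
under the components of the elements of `T` which are homologies (of eigenvalue not `1`, `-1`) up to scalars; for
`i ≠ k` there is an `s` in `T` such that some ratio `t` of two eigenvalues of `s i` is not a ratio of two eigenvalues
of `s k`; `N` is infinite on each factor. -/
structure Reflections (N : Set (Tup F r)) where
  T : Set (Tup F r)
  unit : ∀ s ∈ T, ∀ i, IsUnit (s i).det
  norm : ∀ s ∈ T, ∀ h ∈ N, (fun i => s i * h i * (s i)⁻¹) ∈ Cl N
  irr : ∀ (i : Fin l) (U : Submodule F (Fin (r i) → F)),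
    (∀ s ∈ T, (∃ t, t ≠ 1 ∧ t ≠ -1 ∧ IsRf t (s i)) → ∀ u ∈ U, (s i).mulVec u ∈ U) →
      U = ⊥ ∨ U = ⊤
  sep : ∀ i k, i ≠ k → ∃ s ∈ T, ∃ t : F, (∃ Z, Z ≠ 0 ∧ s i * Z = t • (Z * s i)) ∧
    ∀ Z, s k * Z = t • (Z * s k) → Z = 0
  inf : ∀ i, {m | ∃ h ∈ N, h i = m}.Infinite

/-- `N` is a group of tuples. -/
structure Grp (N : Set (Tup F r)) : Prop where
  one : (fun _ => 1) ∈ N
  mul : ∀ h ∈ N, ∀ k ∈ N, (fun i => h i * k i) ∈ N
  inv : ∀ h ∈ N, ∃ k ∈ N, ∀ i, h i * k i = 1

end Pool.Agent.MUG
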