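import Pool.Agent.MUG.Mat

/-!
# MUG: left invariant derivations
-/

set_option linter.unusedSectionVars false
set_option linter.unusedVariables false

namespace Pool.Agent.MUG

open Pool.Agent.MUW

universe w

variable {F : Type w} [Field F] {l : ℕ} {r : Fin l → ℕ}

/-- `(Dv X p)(h)` is the derivative of `p` at `h` in the direction `h X`. -/
noncomputable def Dv (X : Tup F r) :
    Derivation F (MvPolynomial (Crd r) F) (MvPolynomial (Crd r) F) :=
  MvPolynomial.mkDerivation F fun x =>
    ∑ y, MvPolynomial.C (X x.1 y x.2.2) * MvPolynomial.X ⟨x.1, (x.2.1, y)⟩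

private theorem der_X (X : Tup F r) (x : Crd r) :
    Dv X (MvPolynomial.X x) =
      ∑ y, MvPolynomial.C (X x.1 y x.2.2) * MvPolynomial.X ⟨x.1, (x.2.1, y)⟩ :=
  MvPolynomial.mkDerivation_X F _ x

theorem dv_add (X Y : Tup F r) (p : MvPolynomial (Crd r) F) :
    Dv (fun i => X i + Y i) p = Dv X p + Dv Y p := by
  have h : Dv (fun i => X i + Y i) = Dv X + Dv Y := by
    apply MvPolynomial.derivation_ext
    intro x
    rw [Derivation.add_apply, der_X, der_X, der_X, ← Finset.sum_add_distrib]
    refine Finset.sum_congr rfl fun y _ => ?_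
    rw [Matrix.add_apply, MvPolynomial.C_add, add_mul]
  rw [h, Derivation.add_apply]

theorem dv_smul (a : F) (X : Tup F r) (p : MvPolynomial (Crd r) F) :
    Dv (fun i => a • X i) p = a • Dv X p := by
  have h : Dv (fun i => a • X i) = a • Dv X := by
    apply MvPolynomial.derivation_ext
    intro x
    rw [Derivation.smul_apply, der_X, der_X, Finset.smul_sum]
    refine Finset.sum_congr rfl fun y _ => ?_
    rw [Matrix.smul_apply, smul_eq_mul, MvPolynomial.C_mul, MvPolynomial.smul_eq_C_mul, mul_assoc]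
  rw [h, Derivation.smul_apply]

private theorem der_two (X Y : Tup F r) (x : Crd r) :
    Dv X (Dv Y (MvPolynomial.X x)) =
      ∑ y, MvPolynomial.C ((X x.1 * Y x.1) y x.2.2) * MvPolynomial.X ⟨x.1, (x.2.1, y)⟩ := by
  rw [der_X, map_sum]
  have h1 : ∀ y, Dv X (MvPolynomial.C (Y x.1 y x.2.2) * MvPolynomial.X ⟨x.1, (x.2.1, y)⟩) =
      ∑ z, MvPolynomial.C (X x.1 z y * Y x.1 y x.2.2) * MvPolynomial.X ⟨x.1, (x.2.1, z)⟩ := by
    intro y
    rw [← MvPolynomial.smul_eq_C_mul, Derivation.map_smul, der_X, Finset.smul_sum]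
    refine Finset.sum_congr rfl fun z _ => ?_
    rw [MvPolynomial.smul_eq_C_mul, ← mul_assoc, ← MvPolynomial.C_mul, mul_comm (Y _ _ _)]
  rw [Finset.sum_congr rfl fun y _ => h1 y, Finset.sum_comm]
  refine Finset.sum_congr rfl fun z _ => ?_
  rw [Matrix.mul_apply, map_sum, Finset.sum_mul]

theorem dv_comm (X Y : Tup F r) (p : MvPolynomial (Crd r) F) :
    Dv X (Dv Y p) - Dv Y (Dv X p) = Dv (fun i => X i * Y i - Y i * X i) p := by
  have h : ⁅Dv X, Dv Y⁆ = Dv (fun i => X i * Y i - Y i * X i) := by
    apply MvPolynomial.derivation_ext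
    intro x
    rw [Derivation.commutator_apply, der_two, der_two, der_X, ← Finset.sum_sub_distrib]
    refine Finset.sum_congr rfl fun y _ => ?_
    rw [Matrix.sub_apply, MvPolynomial.C_sub, sub_mul]
  rw [← h, Derivation.commutator_apply]

private theorem der_eval (X h : Tup F r) (x : Crd r) :
    MvPolynomial.eval (crd h) (Dv X (MvPolynomial.X x)) = (h x.1 * X x.1) x.2.1 x.2.2 := by
  rw [der_X, map_sum, Matrix.mul_apply]
  refine Finset.sum_congr rfl fun y _ => ?_
  rw [map_mul, MvPolynomial.eval_C, MvPolynomial.eval_X, mul_comm]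
  rfl

private theorem der_mulX (X h : Tup F r) (p : MvPolynomial (Crd r) F) (n : Crd r) :
    MvPolynomial.eval (crd h) (Dv X (p * MvPolynomial.X n)) =
      MvPolynomial.eval (crd h) p * (h n.1 * X n.1) n.2.1 n.2.2 +
        h n.1 n.2.1 n.2.2 * MvPolynomial.eval (crd h) (Dv X p) := by
  rw [Derivation.leibniz, smul_eq_mul, smul_eq_mul, RingHom.map_add, RingHom.map_mul,
    RingHom.map_mul, der_eval, MvPolynomial.eval_X]
  rfl

/-- the derivative at `1` in terms of the partial derivatives -/
theorem dv_one (X : Tup F r) (p : MvPolynomial (Crd r) F) :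
    MvPolynomial.eval (crd fun _ => 1) (Dv X p) =
      ∑ x : Crd r, X x.1 x.2.1 x.2.2 *
        MvPolynomial.eval (crd fun _ => (1 : Matrix _ _ F)) (MvPolynomial.pderiv x p) := by
  classical
  induction p using MvPolynomial.induction_on with
  | C a =>
    rw [MvPolynomial.derivation_C, map_zero]
    symm
    apply Finset.sum_eq_zero
    intro x _
    rw [MvPolynomial.pderiv_C, map_zero, mul_zero]
  | add p q hp hq =>
    rw [map_add, map_add, hp, hq, ← Finset.sum_add_distrib]
    refine Finset.sum_congr rfl fun x _ => ?_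
    rw [map_add, map_add, mul_add]
  | mul_X p n hp =>
    rw [der_mulX, hp, one_mul]
    have h1 : ∀ x : Crd r, X x.1 x.2.1 x.2.2 *
        MvPolynomial.eval (crd fun _ => (1 : Matrix _ _ F))
          (MvPolynomial.pderiv x (p * MvPolynomial.X n)) =
        (if x = n then MvPolynomial.eval (crd fun _ => (1 : Matrix _ _ F)) p *
          X x.1 x.2.1 x.2.2 else 0) +
        (1 : Matrix (Fin (r n.1)) (Fin (r n.1)) F) n.2.1 n.2.2 *
          (X x.1 x.2.1 x.2.2 *
            MvPolynomial.eval (crd fun _ => (1 : Matrix _ _ F)) (MvPolynomial.pderiv x p)) := by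
      intro x
      have h2 : MvPolynomial.eval (crd fun _ => (1 : Matrix _ _ F)) (MvPolynomial.X n) =
          (1 : Matrix (Fin (r n.1)) (Fin (r n.1)) F) n.2.1 n.2.2 := by
        rw [MvPolynomial.eval_X]
        rfl
      rw [Derivation.leibniz, smul_eq_mul, smul_eq_mul, RingHom.map_add, RingHom.map_mul,
        RingHom.map_mul, MvPolynomial.pderiv_X, h2]
      by_cases hx : x = n
      · subst hx
        rw [if_pos rfl, Pi.single_eq_same, map_one]
        ring
      · rw [if_neg hx, Pi.single_eq_of_ne' hx, map_zero]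
        ring
    rw [Finset.sum_congr rfl fun x _ => h1 x, Finset.sum_add_distrib, Finset.sum_ite_eq' ,
      if_pos (Finset.mem_univ _), Finset.mul_sum]

/-- the curve `1 + a X` -/
theorem dv_curve (X : Tup F r) (p : MvPolynomial (Crd r) F) :
    ∃ q : Polynomial F, (∀ a : F, q.eval a = MvPolynomial.eval (crd fun i => 1 + a • X i) p) ∧
      q.derivative.eval 0 = MvPolynomial.eval (crd fun _ => 1) (Dv X p) ∧
      ((∀ i, X i * X i = 0) → ∀ a : F, q.derivative.eval a =
        MvPolynomial.eval (crd fun i => 1 + a • X i) (Dv X p)) := by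
  induction p using MvPolynomial.induction_on with
  | C c =>
    refine ⟨Polynomial.C c, fun a => ?_, ?_, fun _ a => ?_⟩
    · rw [Polynomial.eval_C, MvPolynomial.eval_C]
    · rw [Polynomial.derivative_C, Polynomial.eval_zero, MvPolynomial.derivation_C, map_zero]
    · rw [Polynomial.derivative_C, Polynomial.eval_zero, MvPolynomial.derivation_C, map_zero]
  | add p p' hp hp' =>
    obtain ⟨q, h1, h2, h3⟩ := hp
    obtain ⟨q', h1', h2', h3'⟩ := hp'
    refine ⟨q + q', fun a => ?_, ?_, fun hX a => ?_⟩
    · rw [Polynomial.eval_add, h1, h1', map_add]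
    · rw [Polynomial.derivative_add, Polynomial.eval_add, h2, h2', map_add, map_add]
    · rw [Polynomial.derivative_add, Polynomial.eval_add, h3 hX, h3' hX, map_add, map_add]
  | mul_X p n hp =>
    obtain ⟨q, h1, h2, h3⟩ := hp
    obtain ⟨c, hc⟩ : ∃ c : F, c = (1 : Matrix (Fin (r n.1)) (Fin (r n.1)) F) n.2.1 n.2.2 :=
      ⟨_, rfl⟩
    obtain ⟨e, he⟩ : ∃ e : F, e = X n.1 n.2.1 n.2.2 := ⟨_, rfl⟩
    have h4 : MvPolynomial.eval (crd fun _ => (1 : Matrix _ _ F)) p = q.eval 0 := by
      rw [h1 0]
      simp only [zero_smul, add_zero]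
    have h6 : ∀ a : F, (q * (Polynomial.C c + Polynomial.X * Polynomial.C e)).derivative.eval a =
        q.derivative.eval a * (c + a * e) + q.eval a * e := by
      intro a
      simp only [Polynomial.derivative_mul, Polynomial.derivative_add, Polynomial.derivative_C,
        Polynomial.derivative_X, Polynomial.eval_add, Polynomial.eval_mul, Polynomial.eval_C,
        Polynomial.eval_X, Polynomial.eval_zero, Polynomial.eval_one]
      ring
    refine ⟨q * (Polynomial.C c + Polynomial.X * Polynomial.C e), fun a => ?_, ?_,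
      fun hX a => ?_⟩
    · rw [Polynomial.eval_mul, Polynomial.eval_add, Polynomial.eval_mul, Polynomial.eval_C,
        Polynomial.eval_X, Polynomial.eval_C, h1, RingHom.map_mul, MvPolynomial.eval_X, hc, he]
      rfl
    · rw [h6, der_mulX, h4, one_mul, h2, ← hc, ← he]
      ring
    · have h5 : ((1 + a • X n.1) * X n.1) n.2.1 n.2.2 = e := by
        rw [add_mul, one_mul, smul_mul_assoc, hX, smul_zero, add_zero, he]
      have h7 : (1 + a • X n.1) n.2.1 n.2.2 = c + a * e := by
        rw [Matrix.add_apply, Matrix.smul_apply, smul_eq_mul, hc, he]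
      rw [h6, der_mulX, h5, h7, h3 hX, h1]
      ring

end Pool.Agent.MUG
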