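import Pool.Agent.MUG.Tan

/-!
# MUG: a group with tangent space zero is finite, part A

If the tangent space is zero, the differentials at `1` of the polynomials which vanish on `N` are all linear forms,
so (Nakayama) there is a polynomial `q` with `q(1) = 1`, `q = 0` on the rest of `N`.
-/

set_option linter.unusedSectionVars false
set_option linter.unusedVariables false

namespace Pool.Agent.MUG

open Pool.Agent.MUW

universe w

variable {F : Type w} [Field F] {l : ℕ} {r : Fin l → ℕ}

/-- the differential at `1` -/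
private noncomputable def finA_D (F : Type w) [Field F] {l : ℕ} (r : Fin l → ℕ) :
    MvPolynomial (Crd r) F →ₗ[F] (Crd r → F) where
  toFun p := fun y => MvPolynomial.eval (crd fun _ => (1 : Matrix _ _ F)) (MvPolynomial.pderiv y p)
  map_add' p q := by
    funext y
    rw [map_add, map_add, Pi.add_apply]
  map_smul' a p := by
    funext y
    rw [Derivation.map_smul, MvPolynomial.smul_eval, RingHom.id_apply, Pi.smul_apply, smul_eq_mul]

/-- the polynomials which vanish on `N`, as a subspace -/
private def finA_V (N : Set (Tup F r)) : Submodule F (MvPolynomial (Crd r) F) where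
  carrier := {p | Van N p}
  zero_mem' := fun h _ => map_zero _
  add_mem' := fun {p q} hp hq h hh => by rw [map_add, hp h hh, hq h hh, add_zero]
  smul_mem' := fun a p hp h hh => by rw [MvPolynomial.smul_eval, hp h hh, mul_zero]

/-- the ideal of the polynomials which vanish on `N` -/
private def finA_I (N : Set (Tup F r)) : Ideal (MvPolynomial (Crd r) F) where
  carrier := {p | Van N p}
  zero_mem' := fun h _ => map_zero _
  add_mem' := fun {p q} hp hq h hh => by rw [map_add, hp h hh, hq h hh, add_zero]
  smul_mem' := fun a p hp h hh => by rw [smul_eq_mul, map_mul, hp h hh, mul_zero]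

/-- if the tangent space is zero, every linear form is the differential of a polynomial which vanishes on `N` -/
theorem fin_diff {N : Set (Tup F r)} (h0 : ∀ X ∈ Tan N, X = 0) (x : Crd r) :
    ∃ p, Van N p ∧ ∀ y, MvPolynomial.eval (crd fun _ => (1 : Matrix _ _ F))
      (MvPolynomial.pderiv y p) = if y = x then 1 else 0 := by
  classical
  have hW : (finA_V N).map (finA_D F r) = ⊤ := by
    by_contra hne
    obtain ⟨f, hf0, hf⟩ := Submodule.exists_le_ker_of_lt_top _ (lt_top_iff_ne_top.2 hne)
    let X : Tup F r := fun i => Matrix.of fun a b => f (Pi.single (⟨i, (a, b)⟩ : Crd r) 1)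
    have hX : ∀ y : Crd r, X y.1 y.2.1 y.2.2 = f (Pi.single y 1) := fun y => rfl
    have hfs : ∀ g : Crd r → F, f g = ∑ y, X y.1 y.2.1 y.2.2 * g y := by
      intro g
      conv_lhs => rw [← Finset.univ_sum_single g]
      rw [map_sum]
      refine Finset.sum_congr rfl fun y _ => ?_
      have h1 : (Pi.single y (g y) : Crd r → F) = g y • Pi.single y (1 : F) := by
        rw [← Pi.single_smul, smul_eq_mul, mul_one]
      rw [h1, map_smul, smul_eq_mul, hX, mul_comm]
    have hXT : X ∈ Tan N := by
      rw [mem_tan]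
      intro p hp
      rw [dv_one]
      have h1 : finA_D F r p ∈ (finA_V N).map (finA_D F r) := Submodule.mem_map_of_mem hp
      have h2 := hf h1
      rw [LinearMap.mem_ker, hfs] at h2
      exact h2
    have hX0 := h0 X hXT
    apply hf0
    ext y
    have h1 : f (Pi.single y 1) = 0 := by
      rw [← hX y, hX0]
      rfl
    simpa using h1
  have h1 : (Pi.single x 1 : Crd r → F) ∈ (finA_V N).map (finA_D F r) := by
    rw [hW]
    exact Submodule.mem_top
  obtain ⟨p, hp, hpx⟩ := Submodule.mem_map.1 h1
  refine ⟨p, hp, fun y => ?_⟩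
  have h2 := congrFun hpx y
  rw [Pi.single_apply] at h2
  exact h2

/-- the maximal ideal at `1` -/
private noncomputable def finA_m (F : Type w) [Field F] {l : ℕ} (r : Fin l → ℕ) :
    Ideal (MvPolynomial (Crd r) F) :=
  Ideal.span (Set.range fun x : Crd r => MvPolynomial.X x -
    MvPolynomial.C ((crd fun _ => (1 : Matrix _ _ F)) x))

private theorem finA_u (x : Crd r) : MvPolynomial.X x -
    MvPolynomial.C ((crd fun _ => (1 : Matrix _ _ F)) x) ∈ finA_m F r :=
  Ideal.subset_span ⟨x, rfl⟩

private theorem finA_ev {p : MvPolynomial (Crd r) F} (hp : p ∈ finA_m F r) :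
    MvPolynomial.eval (crd fun _ => (1 : Matrix _ _ F)) p = 0 := by
  have h : finA_m F r ≤ RingHom.ker (MvPolynomial.eval (crd fun _ => (1 : Matrix _ _ F))) := by
    unfold finA_m
    rw [Ideal.span_le]
    rintro _ ⟨x, rfl⟩
    rw [SetLike.mem_coe, RingHom.mem_ker, map_sub, MvPolynomial.eval_X, MvPolynomial.eval_C,
      sub_self]
  exact h hp

/-- Taylor at `1` -/
private theorem finA_taylor (p : MvPolynomial (Crd r) F) :
    p - MvPolynomial.C (MvPolynomial.eval (crd fun _ => (1 : Matrix _ _ F)) p) -
      ∑ x, MvPolynomial.C (MvPolynomial.eval (crd fun _ => (1 : Matrix _ _ F))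
        (MvPolynomial.pderiv x p)) * (MvPolynomial.X x -
        MvPolynomial.C ((crd fun _ => (1 : Matrix _ _ F)) x)) ∈ finA_m F r * finA_m F r := by
  classical
  induction p using MvPolynomial.induction_on with
  | C a =>
    have h1 : ∑ x, MvPolynomial.C (MvPolynomial.eval (crd fun _ => (1 : Matrix _ _ F))
        (MvPolynomial.pderiv x (MvPolynomial.C a))) * (MvPolynomial.X x -
        MvPolynomial.C ((crd fun _ => (1 : Matrix _ _ F)) x)) =
        (0 : MvPolynomial (Crd r) F) := by
      refine Finset.sum_eq_zero fun x _ => ?_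
      rw [MvPolynomial.pderiv_C, map_zero, map_zero, zero_mul]
    rw [MvPolynomial.eval_C, h1, sub_self, sub_zero]
    exact zero_mem _
  | add p q hp hq =>
    have h1 := add_mem hp hq
    refine (congrArg (· ∈ finA_m F r * finA_m F r) ?_).mp h1
    simp only [map_add, add_mul, Finset.sum_add_distrib]
    ring
  | mul_X p n hp =>
    obtain ⟨L, hL⟩ : ∃ L : MvPolynomial (Crd r) F, L = ∑ x, MvPolynomial.C
        (MvPolynomial.eval (crd fun _ => (1 : Matrix _ _ F)) (MvPolynomial.pderiv x p)) *
        (MvPolynomial.X x - MvPolynomial.C ((crd fun _ => (1 : Matrix _ _ F)) x)) := ⟨_, rfl⟩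
    have hLm : L ∈ finA_m F r := by
      rw [hL]
      exact sum_mem fun x _ => Ideal.mul_mem_left _ _ (finA_u x)
    rw [← hL] at hp
    have h1 : ∑ x, MvPolynomial.C (MvPolynomial.eval (crd fun _ => (1 : Matrix _ _ F))
        (MvPolynomial.pderiv x (p * MvPolynomial.X n))) * (MvPolynomial.X x -
        MvPolynomial.C ((crd fun _ => (1 : Matrix _ _ F)) x)) =
        MvPolynomial.C (MvPolynomial.eval (crd fun _ => (1 : Matrix _ _ F)) p) *
          (MvPolynomial.X n - MvPolynomial.C ((crd fun _ => (1 : Matrix _ _ F)) n)) +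
        MvPolynomial.C ((crd fun _ => (1 : Matrix _ _ F)) n) * L := by
      rw [hL, Finset.mul_sum]
      have h2 : ∀ x : Crd r, MvPolynomial.C (MvPolynomial.eval (crd fun _ => (1 : Matrix _ _ F))
          (MvPolynomial.pderiv x (p * MvPolynomial.X n))) * (MvPolynomial.X x -
          MvPolynomial.C ((crd fun _ => (1 : Matrix _ _ F)) x)) =
          (if x = n then MvPolynomial.C (MvPolynomial.eval (crd fun _ => (1 : Matrix _ _ F)) p) *
            (MvPolynomial.X x - MvPolynomial.C ((crd fun _ => (1 : Matrix _ _ F)) x)) else 0) +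
          MvPolynomial.C ((crd fun _ => (1 : Matrix _ _ F)) n) * (MvPolynomial.C
            (MvPolynomial.eval (crd fun _ => (1 : Matrix _ _ F)) (MvPolynomial.pderiv x p)) *
            (MvPolynomial.X x - MvPolynomial.C ((crd fun _ => (1 : Matrix _ _ F)) x))) := by
        intro x
        rw [Derivation.leibniz, smul_eq_mul, smul_eq_mul, RingHom.map_add, RingHom.map_mul,
          RingHom.map_mul, MvPolynomial.pderiv_X, MvPolynomial.eval_X, MvPolynomial.C_add,
          MvPolynomial.C_mul, MvPolynomial.C_mul]
        by_cases hx : x = n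
        · subst hx
          rw [if_pos rfl, Pi.single_eq_same, map_one, MvPolynomial.C_1]
          ring
        · rw [if_neg hx, Pi.single_eq_of_ne' hx, map_zero, MvPolynomial.C_0]
          ring
      rw [Finset.sum_congr rfl fun x _ => h2 x, Finset.sum_add_distrib, Finset.sum_ite_eq',
        if_pos (Finset.mem_univ _)]
    have h3 : p * MvPolynomial.X n - MvPolynomial.C
        (MvPolynomial.eval (crd fun _ => (1 : Matrix _ _ F)) (p * MvPolynomial.X n)) -
        ∑ x, MvPolynomial.C (MvPolynomial.eval (crd fun _ => (1 : Matrix _ _ F))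
        (MvPolynomial.pderiv x (p * MvPolynomial.X n))) * (MvPolynomial.X x -
        MvPolynomial.C ((crd fun _ => (1 : Matrix _ _ F)) x)) =
        (p - MvPolynomial.C (MvPolynomial.eval (crd fun _ => (1 : Matrix _ _ F)) p) - L) *
          MvPolynomial.X n +
        L * (MvPolynomial.X n - MvPolynomial.C ((crd fun _ => (1 : Matrix _ _ F)) n)) := by
      rw [h1, map_mul, MvPolynomial.eval_X, MvPolynomial.C_mul]
      ring
    rw [h3]
    exact add_mem (Ideal.mul_mem_right _ _ hp) (Ideal.mul_mem_mul hLm (finA_u n))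

/-- `1` is isolated -/
theorem fin_iso {N : Set (Tup F r)} (h1 : (fun _ => 1) ∈ N) (h0 : ∀ X ∈ Tan N, X = 0) :
    ∃ q : MvPolynomial (Crd r) F, MvPolynomial.eval (crd fun _ => 1) q = 1 ∧
      ∀ h ∈ N, h ≠ (fun _ => 1) → MvPolynomial.eval (crd h) q = 0 := by
  classical
  have hxx : ∀ x : Crd r, MvPolynomial.X x -
      MvPolynomial.C ((crd fun _ => (1 : Matrix _ _ F)) x) ∈
      finA_I N ⊔ finA_m F r • finA_m F r := by
    intro x
    obtain ⟨p, hp, hpd⟩ := fin_diff h0 x
    have h2 := finA_taylor p
    rw [hp _ h1, map_zero, sub_zero] at h2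
    have h3 : ∑ y, MvPolynomial.C (MvPolynomial.eval (crd fun _ => (1 : Matrix _ _ F))
        (MvPolynomial.pderiv y p)) * (MvPolynomial.X y -
        MvPolynomial.C ((crd fun _ => (1 : Matrix _ _ F)) y)) = MvPolynomial.X x -
        MvPolynomial.C ((crd fun _ => (1 : Matrix _ _ F)) x) := by
      rw [Finset.sum_eq_single x]
      · rw [hpd, if_pos rfl, MvPolynomial.C_1, one_mul]
      · intro y _ hy
        rw [hpd, if_neg hy, MvPolynomial.C_0, zero_mul]
      · intro hx
        exact absurd (Finset.mem_univ _) hx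
    rw [h3] at h2
    have h4 : MvPolynomial.X x - MvPolynomial.C ((crd fun _ => (1 : Matrix _ _ F)) x) =
        p + -(p - (MvPolynomial.X x -
          MvPolynomial.C ((crd fun _ => (1 : Matrix _ _ F)) x))) := by ring
    rw [h4]
    exact Submodule.add_mem_sup hp (neg_mem h2)
  have hle : finA_m F r ≤ finA_I N ⊔ finA_m F r • finA_m F r := by
    refine Ideal.span_le.2 ?_
    rintro _ ⟨x, rfl⟩
    exact hxx x
  have hfg : (finA_m F r).FG := Submodule.fg_span (Set.finite_range _)
  obtain ⟨q, hq1, hq2⟩ := Submodule.exists_sub_one_mem_and_smul_le_of_fg_of_le_sup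
    (I := finA_m F r) (N := finA_I N) (N' := finA_m F r) (P := finA_m F r) hfg le_rfl hle
  refine ⟨q, ?_, ?_⟩
  · have h2 := finA_ev hq1
    rw [map_sub, map_one, sub_eq_zero] at h2
    exact h2
  · intro h hh hne
    by_contra hq
    apply hne
    funext i
    ext a b
    have h2 : q • (MvPolynomial.X (⟨i, (a, b)⟩ : Crd r) -
        MvPolynomial.C ((crd fun _ => (1 : Matrix _ _ F)) ⟨i, (a, b)⟩)) ∈ finA_I N :=
      hq2 (Submodule.smul_mem_pointwise_smul _ q _ (finA_u _))
    have h3 := h2 h hh
    rw [smul_eq_mul, map_mul, map_sub, MvPolynomial.eval_X, MvPolynomial.eval_C] at h3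
    rcases mul_eq_zero.1 h3 with h4 | h4
    · exact absurd h4 hq
    · exact sub_eq_zero.1 h4

end Pool.Agent.MUG
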