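import Pool.Agent.MUG.Rf

/-!
# MUG: the projections `X ↦ e X (1 - e)` and `X ↦ (1 - e) X e`

With `s = c (1 + (t - 1) e)`, `e = v φ`, `A = e X (1 - e)`, `B = (1 - e) X e`: `s X s⁻¹ = X + (t - 1) A + (t⁻¹ - 1) B`; apply
this twice, as `t ≠ t⁻¹`.
-/

set_option linter.unusedSectionVars false
set_option linter.unusedVariables false

namespace Pool.Agent.MUG

open Pool.Agent.MUW

universe w

variable {F : Type w} [Field F] {n : ℕ}

private theorem prt_idem (v φ : Fin n → F) (hv : φ ⬝ᵥ v = 1) :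
    Matrix.vecMulVec v φ * Matrix.vecMulVec v φ = Matrix.vecMulVec v φ := by
  rw [Matrix.vecMulVec_mul_vecMulVec, hv, one_smul]

private theorem prt_mul {a b : F} (hab : a * b = -a - b) (e X : Matrix (Fin n) (Fin n) F) :
    (1 + a • e) * X * (1 + b • e) =
      X + a • (e * X * (1 - e)) + b • ((1 - e) * X * e) := by
  have h1 : (1 + a • e) * X * (1 + b • e) = X + a • (e * X) + b • (X * e) + (a * b) • (e * X * e) := by
    simp only [add_mul, mul_add, one_mul, mul_one, smul_mul_assoc, mul_smul_comm]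
    module
  rw [h1, hab]
  simp only [mul_sub, sub_mul, one_mul, mul_one]
  module

private theorem prt_inv {t c : F} (h0 : t ≠ 0) (hc : c ≠ 0) (e : Matrix (Fin n) (Fin n) F)
    (he : e * e = e) :
    (c • (1 + (t - 1) • e))⁻¹ = c⁻¹ • (1 + (t⁻¹ - 1) • e) := by
  apply Matrix.inv_eq_right_inv
  rw [smul_mul_smul_comm, mul_inv_cancel₀ hc, one_smul]
  have h1 : (t - 1) * (t⁻¹ - 1) = -(t - 1) - (t⁻¹ - 1) := by
    have h2 : t * t⁻¹ = 1 := mul_inv_cancel₀ h0
    linear_combination h2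
  have h2 := prt_mul h1 e 1
  rw [mul_one, mul_one, mul_one, mul_sub, sub_mul, mul_one, one_mul, he, sub_self, smul_zero,
    smul_zero, add_zero, add_zero] at h2
  exact h2

private theorem prt_conj {t c : F} (h0 : t ≠ 0) (hc : c ≠ 0) (e : Matrix (Fin n) (Fin n) F)
    (he : e * e = e) (X : Matrix (Fin n) (Fin n) F) :
    (c • (1 + (t - 1) • e)) * X * (c • (1 + (t - 1) • e))⁻¹ =
      X + (t - 1) • (e * X * (1 - e)) + (t⁻¹ - 1) • ((1 - e) * X * e) := by
  have h1 : (t - 1) * (t⁻¹ - 1) = -(t - 1) - (t⁻¹ - 1) := by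
    have h2 : t * t⁻¹ = 1 := mul_inv_cancel₀ h0
    linear_combination h2
  rw [prt_inv h0 hc e he, smul_mul_assoc, smul_mul_smul_comm, mul_inv_cancel₀ hc, one_smul]
  exact prt_mul h1 e X

theorem g_parts (g : Submodule F (Matrix (Fin n) (Fin n) F)) {t : F} (h0 : t ≠ 0) (h1 : t ≠ 1)
    (h2 : t ≠ -1) (c : F) (hc : c ≠ 0) (v φ : Fin n → F) (hv : φ ⬝ᵥ v = 1)
    (hs : ∀ X ∈ g, (c • (1 + (t - 1) • Matrix.vecMulVec v φ)) * X *
      (c • (1 + (t - 1) • Matrix.vecMulVec v φ))⁻¹ ∈ g) (X : Matrix (Fin n) (Fin n) F)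
    (hX : X ∈ g) :
    Matrix.vecMulVec v φ * X * (1 - Matrix.vecMulVec v φ) ∈ g ∧
      (1 - Matrix.vecMulVec v φ) * X * Matrix.vecMulVec v φ ∈ g := by
  have he := prt_idem v φ hv
  set e := Matrix.vecMulVec v φ with hedef
  have he' : e * (1 - e) = 0 := by rw [mul_sub, mul_one, he, sub_self]
  have he'' : (1 - e) * e = 0 := by rw [sub_mul, one_mul, he, sub_self]
  have hf : (1 - e) * (1 - e) = 1 - e := by rw [mul_sub, mul_one, he'', sub_zero]
  set A := e * X * (1 - e) with hA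
  set B := (1 - e) * X * e with hB
  have hA1 : e * A * (1 - e) = A := by
    rw [hA]
    calc e * (e * X * (1 - e)) * (1 - e) = (e * e) * X * ((1 - e) * (1 - e)) := by
          simp only [mul_assoc]
      _ = _ := by rw [he, hf]
  have hA2 : (1 - e) * A * e = 0 := by
    rw [hA]
    calc (1 - e) * (e * X * (1 - e)) * e = ((1 - e) * e) * X * ((1 - e) * e) := by
          simp only [mul_assoc]
      _ = _ := by rw [he'', zero_mul, zero_mul]
  have hB1 : e * B * (1 - e) = 0 := by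
    rw [hB]
    calc e * ((1 - e) * X * e) * (1 - e) = (e * (1 - e)) * X * (e * (1 - e)) := by
          simp only [mul_assoc]
      _ = _ := by rw [he', zero_mul, zero_mul]
  have hB2 : (1 - e) * B * e = B := by
    rw [hB]
    calc (1 - e) * ((1 - e) * X * e) * e = ((1 - e) * (1 - e)) * X * (e * e) := by
          simp only [mul_assoc]
      _ = _ := by rw [he, hf]
  have hY : (t - 1) • A + (t⁻¹ - 1) • B ∈ g := by
    have h3 := hs X hX
    rw [prt_conj h0 hc e he X] at h3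
    have h4 := g.sub_mem h3 hX
    have h5 : X + (t - 1) • (e * X * (1 - e)) + (t⁻¹ - 1) • ((1 - e) * X * e) - X =
        (t - 1) • A + (t⁻¹ - 1) • B := by
      rw [hA, hB]
      abel
    rwa [h5] at h4
  have hZ : ((t - 1) * (t - 1)) • A + ((t⁻¹ - 1) * (t⁻¹ - 1)) • B ∈ g := by
    have h3 := hs _ hY
    rw [prt_conj h0 hc e he] at h3
    have h4 := g.sub_mem h3 hY
    have h5 : e * ((t - 1) • A + (t⁻¹ - 1) • B) * (1 - e) = (t - 1) • A := by
      rw [mul_add, add_mul, mul_smul_comm, mul_smul_comm, smul_mul_assoc, smul_mul_assoc, hA1, hB1,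
        smul_zero, add_zero]
    have h6 : (1 - e) * ((t - 1) • A + (t⁻¹ - 1) • B) * e = (t⁻¹ - 1) • B := by
      rw [mul_add, add_mul, mul_smul_comm, mul_smul_comm, smul_mul_assoc, smul_mul_assoc, hA2, hB2,
        smul_zero, zero_add]
    rw [h5, h6, smul_smul, smul_smul] at h4
    have h7 : ∀ Y P Q : Matrix (Fin n) (Fin n) F, Y + P + Q - Y = P + Q := by
      intro Y P Q
      abel
    rwa [h7] at h4
  have hne : t - t⁻¹ ≠ 0 := by
    intro h3
    have h4 : t * t = 1 := by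
      have h5 : t * (t - t⁻¹) = 0 := by rw [h3, mul_zero]
      rw [mul_sub, mul_inv_cancel₀ h0] at h5
      exact sub_eq_zero.1 h5
    rcases mul_self_eq_one_iff.1 h4 with h5 | h5
    · exact h1 h5
    · exact h2 h5
  have ha : t - 1 ≠ 0 := sub_ne_zero.2 h1
  have hb : t⁻¹ - 1 ≠ 0 := by
    intro h3
    apply h1
    rw [← inv_inv t, sub_eq_zero.1 h3, inv_one]
  have hmem : ∀ (u : F) (M : Matrix (Fin n) (Fin n) F), u ≠ 0 → u • M ∈ g → M ∈ g := by
    intro u M hu hM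
    have h3 := g.smul_mem u⁻¹ hM
    rwa [smul_smul, inv_mul_cancel₀ hu, one_smul] at h3
  constructor
  · refine hmem ((t - 1) * (t - t⁻¹)) A (mul_ne_zero ha hne) ?_
    have h3 := g.sub_mem hZ (g.smul_mem (t⁻¹ - 1) hY)
    have h4 : ((t - 1) * (t - 1)) • A + ((t⁻¹ - 1) * (t⁻¹ - 1)) • B -
        (t⁻¹ - 1) • ((t - 1) • A + (t⁻¹ - 1) • B) = ((t - 1) * (t - t⁻¹)) • A := by
      rw [smul_add, smul_smul, smul_smul]
      have h5 : ((t - 1) * (t - t⁻¹)) • A =
          ((t - 1) * (t - 1)) • A - ((t⁻¹ - 1) * (t - 1)) • A := by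
        rw [← sub_smul]
        congr 1
        ring
      rw [h5]
      abel
    rwa [h4] at h3
  · refine hmem ((t⁻¹ - 1) * (t - t⁻¹)) B (mul_ne_zero hb hne) ?_
    have h3 := g.sub_mem (g.smul_mem (t - 1) hY) hZ
    have h4 : (t - 1) • ((t - 1) • A + (t⁻¹ - 1) • B) -
        (((t - 1) * (t - 1)) • A + ((t⁻¹ - 1) * (t⁻¹ - 1)) • B) =
        ((t⁻¹ - 1) * (t - t⁻¹)) • B := by
      rw [smul_add, smul_smul, smul_smul]
      have h5 : ((t⁻¹ - 1) * (t - t⁻¹)) • B =
          ((t - 1) * (t⁻¹ - 1)) • B - ((t⁻¹ - 1) * (t⁻¹ - 1)) • B := by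
        rw [← sub_smul]
        congr 1
        ring
      rw [h5]
      abel
    rwa [h4] at h3

/-- `(s X s⁻¹)` for a homology `s` -/
theorem conj_rf {t c : F} (h0 : t ≠ 0) (hc : c ≠ 0) (v φ : Fin n → F) (hv : φ ⬝ᵥ v = 1)
    (X : Matrix (Fin n) (Fin n) F) :
    (c • (1 + (t - 1) • Matrix.vecMulVec v φ)) * X *
      (c • (1 + (t - 1) • Matrix.vecMulVec v φ))⁻¹ =
      X + (t - 1) • (Matrix.vecMulVec v φ * X * (1 - Matrix.vecMulVec v φ)) +
        (t⁻¹ - 1) • ((1 - Matrix.vecMulVec v φ) * X * Matrix.vecMulVec v φ) :=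
  prt_conj h0 hc _ (prt_idem v φ hv) X

end Pool.Agent.MUG
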