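import Pool.Agent.MUG.Irr
import Pool.Agent.MUG.Parts

/-!
# MUG: an irreducible Lie algebra normalised by a homology contains all matrices of trace zero

`W = {w : φ w = 0, w φ ∈ g}`: `F v + W` is `g`-stable (`X v = φ(X v) v + ..`; bracket with `w φ`, then `(1 - e) · e`), so
`W = ker φ`. `Ψ = {ψ : ψ v = 0, v ψ ∈ g}`: the common kernel of `φ` and `Ψ` is `g`-stable, so `0`, and `Ψ` consists of all
`ψ` with `ψ v = 0`. The brackets `[v ψ, w φ] = ψ(w) v φ - w ψ` give the rest.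
-/

set_option linter.unusedSectionVars false
set_option linter.unusedVariables false

namespace Pool.Agent.MUG

open Pool.Agent.MUW

universe w

variable {F : Type w} [Field F] {n : ℕ}

private theorem gf_mv (a b y : Fin n → F) : (Matrix.vecMulVec a b).mulVec y = (b ⬝ᵥ y) • a := by
  rw [Matrix.vecMulVec_mulVec]
  ext i
  simp [mul_comm]

private theorem gf_p1 (v φ : Fin n → F) (X : Matrix (Fin n) (Fin n) F) :
    Matrix.vecMulVec v φ * X * (1 - Matrix.vecMulVec v φ) =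
      Matrix.vecMulVec v (Matrix.vecMul φ X - (Matrix.vecMul φ X ⬝ᵥ v) • φ) := by
  rw [Matrix.vecMulVec_mul, Matrix.vecMulVec_mul, Matrix.vecMul_sub, Matrix.vecMul_one,
    Matrix.vecMul_vecMulVec]

private theorem gf_p2 (v φ : Fin n → F) (X : Matrix (Fin n) (Fin n) F) :
    (1 - Matrix.vecMulVec v φ) * X * Matrix.vecMulVec v φ =
      Matrix.vecMulVec (X.mulVec v - (φ ⬝ᵥ X.mulVec v) • v) φ := by
  rw [Matrix.mul_assoc, Matrix.mul_vecMulVec, Matrix.mul_vecMulVec, Matrix.sub_mulVec,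
    Matrix.one_mulVec, gf_mv]

/-- the matrices `w φ`, `φ w = 0` -/
private theorem gf_key1 (g : Submodule F (Matrix (Fin n) (Fin n) F))
    (br : ∀ X ∈ g, ∀ Y ∈ g, X * Y - Y * X ∈ g)
    (irr : ∀ U : Submodule F (Fin n → F), (∀ X ∈ g, ∀ u ∈ U, X.mulVec u ∈ U) → U = ⊥ ∨ U = ⊤)
    (v φ : Fin n → F) (hv : φ ⬝ᵥ v = 1)
    (hp : ∀ X ∈ g, (1 - Matrix.vecMulVec v φ) * X * Matrix.vecMulVec v φ ∈ g)
    (w : Fin n → F) (hw : φ ⬝ᵥ w = 0) : Matrix.vecMulVec w φ ∈ g := by
  let U : Submodule F (Fin n → F) :=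
    { carrier := {u | Matrix.vecMulVec (u - (φ ⬝ᵥ u) • v) φ ∈ g}
      add_mem' := by
        intro a b ha hb
        have h1 : a + b - (φ ⬝ᵥ (a + b)) • v = (a - (φ ⬝ᵥ a) • v) + (b - (φ ⬝ᵥ b) • v) := by
          rw [dotProduct_add, add_smul]
          abel
        show Matrix.vecMulVec (a + b - (φ ⬝ᵥ (a + b)) • v) φ ∈ g
        rw [h1, Matrix.add_vecMulVec]
        exact g.add_mem ha hb
      zero_mem' := by
        show Matrix.vecMulVec (0 - (φ ⬝ᵥ 0) • v) φ ∈ g
        rw [dotProduct_zero, zero_smul, sub_zero]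
        have h1 : Matrix.vecMulVec (0 : Fin n → F) φ = 0 := by
          ext i j
          simp [Matrix.vecMulVec_apply]
        rw [h1]
        exact g.zero_mem
      smul_mem' := by
        intro c a ha
        have h1 : c • a - (φ ⬝ᵥ (c • a)) • v = c • (a - (φ ⬝ᵥ a) • v) := by
          rw [dotProduct_smul, smul_sub, smul_smul, smul_eq_mul]
        show Matrix.vecMulVec (c • a - (φ ⬝ᵥ (c • a)) • v) φ ∈ g
        rw [h1, Matrix.smul_vecMulVec]
        exact g.smul_mem c ha }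
  have hU : ∀ u, u ∈ U ↔ Matrix.vecMulVec (u - (φ ⬝ᵥ u) • v) φ ∈ g := fun u => Iff.rfl
  have h2 : ∀ X ∈ g, ∀ u ∈ U, X.mulVec u ∈ U := by
    intro X hX u hu
    rw [hU] at hu ⊢
    set z := u - (φ ⬝ᵥ u) • v with hz
    have hz0 : φ ⬝ᵥ z = 0 := by
      rw [hz, dotProduct_sub, dotProduct_smul, hv, smul_eq_mul, mul_one, sub_self]
    have hX1 : Matrix.vecMulVec (X.mulVec v - (φ ⬝ᵥ X.mulVec v) • v) φ ∈ g := by
      rw [← gf_p2]
      exact hp X hX
    have hY := br X hX _ hu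
    have hY1 := hp _ hY
    rw [gf_p2, Matrix.sub_mulVec, ← Matrix.mulVec_mulVec, ← Matrix.mulVec_mulVec, gf_mv, gf_mv, hv,
      one_smul, dotProduct_sub, dotProduct_smul, hz0, smul_zero, sub_zero] at hY1
    have hY2 := g.add_mem hY1 (g.smul_mem (φ ⬝ᵥ X.mulVec v) hu)
    rw [← Matrix.smul_vecMulVec, ← Matrix.add_vecMulVec] at hY2
    have hfin := g.add_mem hY2 (g.smul_mem (φ ⬝ᵥ u) hX1)
    rw [← Matrix.smul_vecMulVec, ← Matrix.add_vecMulVec] at hfin
    have hu2 : X.mulVec u = X.mulVec z + (φ ⬝ᵥ u) • X.mulVec v := by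
      rw [hz, Matrix.mulVec_sub, Matrix.mulVec_smul]
      abel
    have h3 : X.mulVec u - (φ ⬝ᵥ X.mulVec u) • v =
        X.mulVec z - (φ ⬝ᵥ X.mulVec v) • z - (φ ⬝ᵥ X.mulVec z) • v + (φ ⬝ᵥ X.mulVec v) • z +
          (φ ⬝ᵥ u) • (X.mulVec v - (φ ⬝ᵥ X.mulVec v) • v) := by
      rw [hu2, dotProduct_add, dotProduct_smul, smul_eq_mul]
      module
    rw [h3]
    exact hfin
  have hvU : v ∈ U := by
    rw [hU, hv, one_smul, sub_self]
    have h1 : Matrix.vecMulVec (0 : Fin n → F) φ = 0 := by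
      ext i j
      simp [Matrix.vecMulVec_apply]
    rw [h1]
    exact g.zero_mem
  have hw2 : w ∈ U := by
    rcases irr U h2 with h | h
    · rw [h, Submodule.mem_bot] at hvU
      rw [hvU, dotProduct_zero] at hv
      exact absurd hv zero_ne_one
    · rw [h]
      exact Submodule.mem_top
  rw [hU, hw, zero_smul, sub_zero] at hw2
  exact hw2

/-- the matrices `v ψ`, `ψ v = 0` -/
private theorem gf_key2 (g : Submodule F (Matrix (Fin n) (Fin n) F))
    (br : ∀ X ∈ g, ∀ Y ∈ g, X * Y - Y * X ∈ g)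
    (irr : ∀ U : Submodule F (Fin n → F), (∀ X ∈ g, ∀ u ∈ U, X.mulVec u ∈ U) → U = ⊥ ∨ U = ⊤)
    (v φ : Fin n → F) (hv : φ ⬝ᵥ v = 1)
    (hp : ∀ X ∈ g, Matrix.vecMulVec v φ * X * (1 - Matrix.vecMulVec v φ) ∈ g)
    (ψ : Fin n → F) (hψ : ψ ⬝ᵥ v = 0) : Matrix.vecMulVec v ψ ∈ g := by
  have hz : Matrix.vecMulVec v (0 : Fin n → F) = 0 := by
    ext i j
    simp [Matrix.vecMulVec_apply]
  let K : Submodule F (Fin n → F) :=
    { carrier := {u | φ ⬝ᵥ u = 0 ∧ ∀ ψ : Fin n → F, ψ ⬝ᵥ v = 0 → Matrix.vecMulVec v ψ ∈ g →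
        ψ ⬝ᵥ u = 0}
      add_mem' := by
        rintro a b ⟨ha, ha'⟩ ⟨hb, hb'⟩
        refine ⟨by rw [dotProduct_add, ha, hb, add_zero], fun ψ h1 h2 => ?_⟩
        rw [dotProduct_add, ha' ψ h1 h2, hb' ψ h1 h2, add_zero]
      zero_mem' := ⟨dotProduct_zero _, fun ψ _ _ => dotProduct_zero _⟩
      smul_mem' := by
        rintro c a ⟨ha, ha'⟩
        refine ⟨by rw [dotProduct_smul, ha, smul_zero], fun ψ h1 h2 => ?_⟩
        rw [dotProduct_smul, ha' ψ h1 h2, smul_zero] }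
  have hK : ∀ u, u ∈ K ↔ (φ ⬝ᵥ u = 0 ∧ ∀ ψ : Fin n → F, ψ ⬝ᵥ v = 0 → Matrix.vecMulVec v ψ ∈ g →
    ψ ⬝ᵥ u = 0) := fun u => Iff.rfl
  have hK0 : K = ⊥ := by
    have hst : ∀ X ∈ g, ∀ u ∈ K, X.mulVec u ∈ K := by
      intro X hX u hu
      rw [hK] at hu ⊢
      obtain ⟨hu1, hu2⟩ := hu
      constructor
      · have h1 := hp X hX
        rw [gf_p1] at h1
        have h2 := hu2 _ (by
          rw [sub_dotProduct, smul_dotProduct, hv, smul_eq_mul, mul_one, sub_self]) h1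
        rw [sub_dotProduct, smul_dotProduct, hu1, smul_zero, sub_zero] at h2
        rwa [Matrix.dotProduct_mulVec]
      · intro χ hχ hχg
        have h1 := hp _ (br _ hχg X hX)
        rw [gf_p1] at h1
        have h3 : Matrix.vecMul φ (Matrix.vecMulVec v χ * X - X * Matrix.vecMulVec v χ) =
            Matrix.vecMul χ X - (φ ⬝ᵥ X.mulVec v) • χ := by
          rw [Matrix.vecMul_sub, ← Matrix.vecMul_vecMul, Matrix.vecMul_vecMulVec, hv, one_smul,
            Matrix.mul_vecMulVec, Matrix.vecMul_vecMulVec]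
        have h2 := hu2 _ (by
          rw [sub_dotProduct, smul_dotProduct, hv, smul_eq_mul, mul_one, sub_self]) h1
        rw [h3, sub_dotProduct, smul_dotProduct, hu1, smul_zero, sub_zero, sub_dotProduct,
          smul_dotProduct, hu2 χ hχ hχg, smul_zero, sub_zero] at h2
        rwa [Matrix.dotProduct_mulVec]
    rcases irr K hst with h | h
    · exact h
    · have h1 : v ∈ K := by
        rw [h]
        exact Submodule.mem_top
      rw [hK, hv] at h1
      exact absurd h1.1 one_ne_zero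
  let P : Submodule F (Fin n → F) :=
    { carrier := {ψ | Matrix.vecMulVec v (ψ - (ψ ⬝ᵥ v) • φ) ∈ g}
      add_mem' := by
        intro a b ha hb
        have h1 : a + b - ((a + b) ⬝ᵥ v) • φ = (a - (a ⬝ᵥ v) • φ) + (b - (b ⬝ᵥ v) • φ) := by
          rw [add_dotProduct, add_smul]
          abel
        show Matrix.vecMulVec v (a + b - ((a + b) ⬝ᵥ v) • φ) ∈ g
        rw [h1, Matrix.vecMulVec_add]
        exact g.add_mem ha hb
      zero_mem' := by
        show Matrix.vecMulVec v (0 - (0 ⬝ᵥ v) • φ) ∈ g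
        rw [zero_dotProduct, zero_smul, sub_zero, hz]
        exact g.zero_mem
      smul_mem' := by
        intro c a ha
        have h1 : c • a - ((c • a) ⬝ᵥ v) • φ = c • (a - (a ⬝ᵥ v) • φ) := by
          rw [smul_dotProduct, smul_sub, smul_smul, smul_eq_mul]
        show Matrix.vecMulVec v (c • a - ((c • a) ⬝ᵥ v) • φ) ∈ g
        rw [h1, Matrix.vecMulVec_smul]
        exact g.smul_mem c ha }
  have hP : ∀ ψ, ψ ∈ P ↔ Matrix.vecMulVec v (ψ - (ψ ⬝ᵥ v) • φ) ∈ g := fun ψ => Iff.rfl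
  have hPt : P = ⊤ := by
    by_contra hne
    obtain ⟨f, hf, hfP⟩ := P.exists_le_ker_of_lt_top (lt_top_iff_ne_top.2 hne)
    set u : Fin n → F := fun i => f (Pi.single i 1) with hu
    have hfu : ∀ x, f x = x ⬝ᵥ u := by
      intro x
      rw [LinearMap.pi_apply_eq_sum_univ f x]
      refine Finset.sum_congr rfl fun i _ => ?_
      rw [smul_eq_mul, hu]
      congr 2
      ext j
      simp [Pi.single_apply, eq_comm]
    have huK : u ∈ K := by
      rw [hK]
      constructor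
      · rw [← hfu]
        refine LinearMap.mem_ker.1 (hfP ?_)
        rw [hP, hv, one_smul, sub_self, hz]
        exact g.zero_mem
      · intro χ h1 h2
        rw [← hfu]
        refine LinearMap.mem_ker.1 (hfP ?_)
        rw [hP, h1, zero_smul, sub_zero]
        exact h2
    rw [hK0, Submodule.mem_bot] at huK
    refine hf (LinearMap.ext fun x => ?_)
    rw [hfu, huK, dotProduct_zero]
    rfl
  have h1 : ψ ∈ P := by
    rw [hPt]
    exact Submodule.mem_top
  rw [hP, hψ, zero_smul, sub_zero] at h1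
  exact h1

/-- an irreducible Lie algebra which is stable under `X ↦ e X (1 - e)` and `X ↦ (1 - e) X e` -/
theorem g_full (g : Submodule F (Matrix (Fin n) (Fin n) F))
    (br : ∀ X ∈ g, ∀ Y ∈ g, X * Y - Y * X ∈ g)
    (irr : ∀ U : Submodule F (Fin n → F), (∀ X ∈ g, ∀ u ∈ U, X.mulVec u ∈ U) → U = ⊥ ∨ U = ⊤)
    (v φ : Fin n → F) (hv : φ ⬝ᵥ v = 1)
    (hp : ∀ X ∈ g, Matrix.vecMulVec v φ * X * (1 - Matrix.vecMulVec v φ) ∈ g ∧
      (1 - Matrix.vecMulVec v φ) * X * Matrix.vecMulVec v φ ∈ g)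
    (X : Matrix (Fin n) (Fin n) F) (hX : X.trace = 0) : X ∈ g := by
  have k1 := gf_key1 g br irr v φ hv fun X hX => (hp X hX).2
  have k2 := gf_key2 g br irr v φ hv fun X hX => (hp X hX).1
  have k3 : ∀ a b : Fin n → F,
      Matrix.vecMulVec a b - (b ⬝ᵥ a) • Matrix.vecMulVec v φ ∈ g := by
    intro a b
    set a' := a - (φ ⬝ᵥ a) • v with ha
    set b' := b - (b ⬝ᵥ v) • φ with hb
    have h1 : φ ⬝ᵥ a' = 0 := by
      rw [ha, dotProduct_sub, dotProduct_smul, hv, smul_eq_mul, mul_one, sub_self]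
    have h2 : b' ⬝ᵥ v = 0 := by
      rw [hb, sub_dotProduct, smul_dotProduct, hv, smul_eq_mul, mul_one, sub_self]
    have h3 : b' ⬝ᵥ a' = b ⬝ᵥ a - (b ⬝ᵥ v) * (φ ⬝ᵥ a) := by
      rw [ha, dotProduct_sub, dotProduct_smul, h2, smul_zero, sub_zero, hb, sub_dotProduct,
        smul_dotProduct, smul_eq_mul]
    have h4 := br _ (k2 b' h2) _ (k1 a' h1)
    rw [Matrix.vecMulVec_mul_vecMulVec, Matrix.vecMulVec_mul_vecMulVec, hv, one_smul,
      Matrix.vecMulVec_smul, h3] at h4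
    have h5 := g.sub_mem (g.add_mem (g.smul_mem (φ ⬝ᵥ a) (k2 b' h2))
      (g.smul_mem (b ⬝ᵥ v) (k1 a' h1))) h4
    have h6 : Matrix.vecMulVec a b - (b ⬝ᵥ a) • Matrix.vecMulVec v φ =
        (φ ⬝ᵥ a) • Matrix.vecMulVec v b' + (b ⬝ᵥ v) • Matrix.vecMulVec a' φ -
          ((b ⬝ᵥ a - (b ⬝ᵥ v) * (φ ⬝ᵥ a)) • Matrix.vecMulVec v φ - Matrix.vecMulVec a' b') := by
      ext i j
      simp only [Matrix.sub_apply, Matrix.add_apply, Matrix.smul_apply, Matrix.vecMulVec_apply,
        smul_eq_mul, ha, hb, Pi.sub_apply, Pi.smul_apply]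
      ring
    rw [h6]
    exact h5
  have h7 : X = ∑ i, (Matrix.vecMulVec (Pi.single i 1) (X i) -
      (X i ⬝ᵥ Pi.single i 1) • Matrix.vecMulVec v φ) := by
    rw [Finset.sum_sub_distrib, ← Finset.sum_smul]
    have h8 : ∑ i, (X i ⬝ᵥ Pi.single i 1) = 0 := by
      rw [← hX, Matrix.trace]
      refine Finset.sum_congr rfl fun i _ => ?_
      rw [dotProduct_single, mul_one, Matrix.diag_apply]
    rw [h8, zero_smul, sub_zero]
    ext i j
    rw [Matrix.sum_apply, Finset.sum_eq_single i]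
    · rw [Matrix.vecMulVec_apply, Pi.single_eq_same, one_mul]
    · intro k _ hk
      rw [Matrix.vecMulVec_apply, Pi.single_eq_of_ne (Ne.symm hk), zero_mul]
    · intro h
      exact absurd (Finset.mem_univ i) h
  rw [h7]
  exact g.sum_mem fun i _ => k3 _ _

theorem full [CharZero F] (g : Submodule F (Matrix (Fin n) (Fin n) F))
    (br : ∀ X ∈ g, ∀ Y ∈ g, X * Y - Y * X ∈ g)
    (tr : ∀ X ∈ g, X.trace = 0) (hne : ∃ X ∈ g, X ≠ 0)
    (T : Set (Matrix (Fin n) (Fin n) F))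
    (hT : ∀ s ∈ T, (∃ t, t ≠ 0 ∧ t ≠ -1 ∧ IsRf t s) ∧ ∀ X ∈ g, s * X * s⁻¹ ∈ g)
    (irr : ∀ U : Submodule F (Fin n → F), (∀ s ∈ T, ∀ u ∈ U, s.mulVec u ∈ U) → U = ⊥ ∨ U = ⊤)
    (X : Matrix (Fin n) (Fin n) F) (hX : X.trace = 0) : X ∈ g := by
  classical
  have hirr := g_irr g tr hne T hT irr
  by_cases h : ∃ s ∈ T, ∃ t, t ≠ 1 ∧ t ≠ 0 ∧ t ≠ -1 ∧ IsRf t s
  · obtain ⟨s, hs, t, h1, h0, h2, c, v, φ, hc, hv, rfl⟩ := h
    exact g_full g br hirr v φ hv (g_parts g h0 h1 h2 c hc v φ hv (hT _ hs).2) X hX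
  · -- all elements of `T` are scalars, so `n ≤ 1` and `g = 0`
    have hsc : ∀ s ∈ T, ∃ c : F, s = c • 1 := by
      intro s hs
      obtain ⟨⟨t, h0, h2, hrf⟩, _⟩ := hT s hs
      have h1 : t = 1 := by
        by_contra h1
        exact h ⟨s, hs, t, h1, h0, h2, hrf⟩
      obtain ⟨c, v, φ, _, _, hc⟩ := hrf
      refine ⟨c, ?_⟩
      rw [hc, h1, sub_self, zero_smul, add_zero]
    have hsub : ∀ i j : Fin n, i = j := by
      intro i j
      by_contra hij
      have hst : ∀ s ∈ T, ∀ u ∈ Submodule.span F {(Pi.single i 1 : Fin n → F)},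
          s.mulVec u ∈ Submodule.span F {(Pi.single i 1 : Fin n → F)} := by
        intro s hs u hu
        obtain ⟨c, rfl⟩ := hsc s hs
        rw [Matrix.smul_mulVec, Matrix.one_mulVec]
        exact Submodule.smul_mem _ _ hu
      rcases irr _ hst with h1 | h1
      · rw [Submodule.span_singleton_eq_bot] at h1
        have h2 := congrFun h1 i
        rw [Pi.single_eq_same] at h2
        exact one_ne_zero h2
      · have h2 : (Pi.single j 1 : Fin n → F) ∈ Submodule.span F {(Pi.single i 1 : Fin n → F)} := by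
          rw [h1]
          exact Submodule.mem_top
        obtain ⟨c, hc⟩ := Submodule.mem_span_singleton.1 h2
        have h3 := congrFun hc j
        rw [Pi.smul_apply, Pi.single_eq_same, Pi.single_eq_of_ne (Ne.symm hij), smul_zero] at h3
        exact zero_ne_one h3
    have hX0 : X = 0 := by
      ext i j
      rw [← hsub i j, Matrix.zero_apply, ← hX, Matrix.trace, Finset.sum_eq_single i]
      · rfl
      · intro k _ hk
        exact absurd (hsub k i) hk
      · intro h1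
        exact absurd (Finset.mem_univ i) h1
    rw [hX0]
    exact g.zero_mem

end Pool.Agent.MUG
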