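import Pool.Agent.MUG.Defs
import Pool.Agent.MUW.Act

/-!
# MUG: the elements which act trivially on `R`

`ker_grp`: they form a group of tuples (`Aut` acts from the left). `ker_sl`: the alternatization of `ml` at the basis is
`dv`, the action multiplies it by the determinant, and it is fixed, because `dv = f d`, `f` algebraic, `d` fixed.
-/

set_option linter.unusedSectionVars false
set_option linter.unusedVariables false

namespace Pool.Agent.MUG

open CategoryTheory MonoidalCategory Limits TensorProduct Pool.Agent.KTT Pool.Agent.MUT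
  Pool.Agent.MUW

universe v u w w'

variable {C : Type u} [Category.{v} C] [MonoidalCategory C]
  {F : Type w} [Field F] (H : C ⥤ ModuleCat.{w} F)

/-- the action of a product -/
private theorem img_mul {G : Type w'} [Group G] (ρ : G →* Aut H) (g g' : G) (X : C) (x : H.obj X) :
    ((ρ (g * g')).hom.app X).hom x = ((ρ g).hom.app X).hom (((ρ g').hom.app X).hom x) := by
  rw [map_mul]
  rfl

/-- the action of the neutral element -/
private theorem img_one {G : Type w'} [Group G] (ρ : G →* Aut H) (X : C) (x : H.obj X) :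
    ((ρ 1).hom.app X).hom x = x := by
  rw [map_one]
  rfl

theorem ker_grp {G : Type w'} [Group G] (ρ : G →* Aut H) (R : C → Prop) {l : ℕ} {r : Fin l → ℕ}
    {V : Fin l → C} (b : ∀ i, Module.Basis (Fin (r i)) F (H.obj (V i))) :
    Grp (Ker H ρ R b) := by
  classical
  refine ⟨⟨1, fun X _ v => img_one H ρ X v, fun i x => ?_⟩, ?_, ?_⟩
  · rw [img_one]
    show b i x = ∑ y, (1 : Matrix (Fin (r i)) (Fin (r i)) F) y x • b i y
    rw [Finset.sum_eq_single x]
    · rw [Matrix.one_apply_eq, one_smul]
    · intro y _ hy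
      rw [Matrix.one_apply_ne hy, zero_smul]
    · intro hx
      exact absurd (Finset.mem_univ x) hx
  · rintro h ⟨g, hg, hg'⟩ k ⟨g₂, hk, hk'⟩
    refine ⟨g * g₂, fun X hX v => ?_, fun i x => ?_⟩
    · rw [img_mul, hk X hX, hg X hX]
    · rw [img_mul, hk', map_sum]
      simp only [map_smul, hg', Finset.smul_sum, smul_smul]
      rw [Finset.sum_comm]
      refine Finset.sum_congr rfl fun y _ => ?_
      rw [← Finset.sum_smul, Matrix.mul_apply]
      congr 1
      exact Finset.sum_congr rfl fun z _ => mul_comm _ _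
  · rintro h ⟨g, hg, hg'⟩
    have hinv : ∀ (X : C) (v : H.obj X),
        ((ρ g).hom.app X).hom (((ρ g⁻¹).hom.app X).hom v) = v := by
      intro X v
      rw [← img_mul, mul_inv_cancel, img_one]
    have hinv' : ∀ (X : C) (v : H.obj X),
        ((ρ g⁻¹).hom.app X).hom (((ρ g).hom.app X).hom v) = v := by
      intro X v
      rw [← img_mul, inv_mul_cancel, img_one]
    refine ⟨fun i => Matrix.of fun y x => (b i).repr (((ρ g⁻¹).hom.app (V i)).hom (b i x)) y,
      ⟨g⁻¹, fun X hX v => ?_, fun i x => ?_⟩, fun i => ?_⟩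
    · conv_lhs => rw [← hg X hX v]
      exact hinv' X v
    · conv_lhs => rw [← (b i).sum_repr (((ρ g⁻¹).hom.app (V i)).hom (b i x))]
      rfl
    · ext z x
      have h1 := hinv (V i) (b i x)
      rw [← (b i).sum_repr (((ρ g⁻¹).hom.app (V i)).hom (b i x)), map_sum] at h1
      simp only [map_smul, hg', Finset.smul_sum, smul_smul] at h1
      rw [Finset.sum_comm] at h1
      simp only [← Finset.sum_smul] at h1
      have h2 := congrArg (fun v => (b i).repr v z) h1
      simp only [(b i).repr_sum_self, (b i).repr_self] at h2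
      rw [Matrix.mul_apply, Matrix.one_apply]
      rw [Finsupp.single_apply] at h2
      have h3 : (if x = z then (1 : F) else 0) = if z = x then 1 else 0 := by
        by_cases hxz : x = z
        · rw [if_pos hxz, if_pos hxz.symm]
        · rw [if_neg hxz, if_neg (Ne.symm hxz)]
      rw [← h3, ← h2]
      exact Finset.sum_congr rfl fun y _ => mul_comm _ _

/-- determinant one, because of the determinant object -/
theorem ker_sl [H.Monoidal] {G : Type w'} [Group G] (ρ : G →* Aut H)
    (ht : ∀ g, NatTrans.IsMonoidal (ρ g).hom) (R : C → Prop) {l : ℕ} {r : Fin l → ℕ}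
    {V : Fin l → C} (b : ∀ i, Module.Basis (Fin (r i)) F (H.obj (V i)))
    (hd : ∀ i, dv H (b i) ≠ 0 ∧ ∃ D, R D ∧ ∃ f ∈ ah H D (pw (V i) (r i)), ∃ d, f d = dv H (b i)) :
    ∀ h ∈ Ker H ρ R b, Sl h := by
  classical
  rintro h ⟨g, hg, hg'⟩ i
  have := ht g
  obtain ⟨h0, D, hD, f, hf, d, hfd⟩ := hd i
  obtain ⟨M, hM⟩ := ml_multi H (V i) (r i)
  have hA : ∀ x : Fin (r i) → H.obj (V i),
      MultilinearMap.alternatization M x =
        ∑ σ : Equiv.Perm (Fin (r i)), ((Equiv.Perm.sign σ : ℤ) : F) • ml H (r i) fun t => x (σ t) := by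
    intro x
    rw [MultilinearMap.alternatization_apply]
    refine Finset.sum_congr rfl fun σ _ => ?_
    rw [MultilinearMap.domDomCongr_apply, hM, Int.cast_smul_eq_zsmul]
    rfl
  have h1 : ((ρ g).hom.app (pw (V i) (r i))).hom (dv H (b i)) = dv H (b i) := by
    rw [← hfd, ← nat_ah H (ρ g).hom hf, hg D hD]
  have h2 : ((ρ g).hom.app (pw (V i) (r i))).hom (dv H (b i)) =
      MultilinearMap.alternatization M fun x => ((ρ g).hom.app (V i)).hom (b i x) := by
    rw [hA]
    unfold dv
    rw [map_sum]
    refine Finset.sum_congr rfl fun σ _ => ?_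
    rw [map_smul, nat_ml]
  have h3 : MultilinearMap.alternatization M (b i) = dv H (b i) := hA _
  obtain ⟨θ, hθ⟩ : ∃ θ : Module.Dual F (H.obj (pw (V i) (r i))), θ (dv H (b i)) ≠ 0 := by
    by_contra hcon
    push Not at hcon
    exact h0 ((Module.forall_dual_apply_eq_zero_iff F _).1 hcon)
  have h4 : ∀ x : Fin (r i) → H.obj (V i),
      θ (MultilinearMap.alternatization M x) = θ (dv H (b i)) * (b i).det x := by
    intro x
    have h5 := congrArg (fun A : (H.obj (V i)) [⋀^Fin (r i)]→ₗ[F] F => A x)
      (AlternatingMap.eq_smul_basis_det (b i) (θ.compAlternatingMap (MultilinearMap.alternatization M)))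
    rw [← h3]
    exact h5
  have h5 := h4 fun x => ((ρ g).hom.app (V i)).hom (b i x)
  rw [← h2, h1] at h5
  have h6 : (b i).det (fun x => ((ρ g).hom.app (V i)).hom (b i x)) = 1 :=
    (mul_left_cancel₀ hθ (h5.symm.trans (mul_one _).symm))
  rw [Module.Basis.det_apply] at h6
  rw [← h6]
  congr 1
  ext y x
  rw [Module.Basis.toMatrix_apply, hg', (b i).repr_sum_self]

end Pool.Agent.MUG
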