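import Pool.Agent.MUG.Rf

/-!
# MUG: a space of matrices normalised by an irreducible set of homologies is irreducible

Let `M` be a minimal nonzero `g`-stable subspace. If `s M = M` for all `s ∈ T`, `M` is everything. Otherwise
`s M ∩ M = 0` for some `s`, so `M ∩ ker φ = 0` and `M` is a line, of character `χ`. Let `u` be in the weight space `W`
of `χ`, `s ∈ T`. Then `s u`, `s^2 u` are weight vectors and `s^2 u = c (1 + t) s u - c^2 t u`, both coefficients are
nonzero, so `s u` has the character `χ` or is a multiple of `u`, and `s u ∈ W`. So `W` is everything, `g` acts by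
scalars of trace zero, `g = 0`, contradiction.
-/

set_option linter.unusedSectionVars false
set_option linter.unusedVariables false

namespace Pool.Agent.MUG

open Pool.Agent.MUW

universe w

variable {F : Type w} [Field F] {n : ℕ}

private lemma Irr_conj (g : Submodule F (Matrix (Fin n) (Fin n) F))
    (s : Matrix (Fin n) (Fin n) F) (hs : IsUnit s.det) (h : ∀ X ∈ g, s * X * s⁻¹ ∈ g) :
    ∀ X ∈ g, s⁻¹ * X * s ∈ g := by
  intro X hX
  have e1 : s⁻¹ * s = 1 := Matrix.nonsing_inv_mul s hs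
  have key : ∀ Y : Matrix (Fin n) (Fin n) F, s⁻¹ * (s * Y * s⁻¹) * s = Y := by
    intro Y
    calc s⁻¹ * (s * Y * s⁻¹) * s = (s⁻¹ * s) * Y * (s⁻¹ * s) := by simp only [mul_assoc]
      _ = Y := by rw [e1, one_mul, mul_one]
  let f : g →ₗ[F] g :=
    { toFun := fun Y => ⟨s * Y.1 * s⁻¹, h Y.1 Y.2⟩
      map_add' := fun Y Z => by
        apply Subtype.ext
        simp [mul_add, add_mul]
      map_smul' := fun a Y => by
        apply Subtype.ext
        simp }
  have hinj : Function.Injective f := by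
    intro Y Z hYZ
    apply Subtype.ext
    have h1 : s * Y.1 * s⁻¹ = s * Z.1 * s⁻¹ := congrArg Subtype.val hYZ
    have h2 := key Y.1
    rw [h1, key Z.1] at h2
    exact h2.symm
  obtain ⟨Y, hY⟩ := (LinearMap.injective_iff_surjective.mp hinj) ⟨X, hX⟩
  have h1 : s * Y.1 * s⁻¹ = X := congrArg Subtype.val hY
  have h2 : s⁻¹ * X * s = Y.1 := by rw [← h1]; exact key Y.1
  rw [h2]
  exact Y.2

private lemma Irr_act (t c : F) (v φ u : Fin n → F) :
    (c • (1 + (t - 1) • Matrix.vecMulVec v φ)).mulVec u = c • (u + ((t - 1) * (φ ⬝ᵥ u)) • v) := by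
  rw [Matrix.smul_mulVec, Matrix.add_mulVec, Matrix.one_mulVec, Matrix.smul_mulVec]
  have h : (Matrix.vecMulVec v φ).mulVec u = (φ ⬝ᵥ u) • v := by
    ext i
    simp only [Matrix.mulVec, dotProduct, Matrix.vecMulVec_apply, Pi.smul_apply, smul_eq_mul]
    rw [Finset.sum_mul]
    exact Finset.sum_congr rfl fun j _ => by ring
  rw [h, smul_smul]

private lemma Irr_sq (t c : F) (v φ u : Fin n → F) (hv : φ ⬝ᵥ v = 1)
    (s : Matrix (Fin n) (Fin n) F) (hs : s = c • (1 + (t - 1) • Matrix.vecMulVec v φ)) :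
    s.mulVec (s.mulVec u) = (c * (1 + t)) • s.mulVec u - (c ^ 2 * t) • u := by
  have h1 : ∀ x, s.mulVec x = c • (x + ((t - 1) * (φ ⬝ᵥ x)) • v) := by
    intro x
    rw [hs]
    exact Irr_act t c v φ x
  have h2 : φ ⬝ᵥ (s.mulVec u) = c * t * (φ ⬝ᵥ u) := by
    rw [h1 u, dotProduct_smul, dotProduct_add, dotProduct_smul, hv]
    simp only [smul_eq_mul]
    ring
  rw [h1 (s.mulVec u), h2, h1 u]
  ext i
  simp only [Pi.smul_apply, Pi.add_apply, Pi.sub_apply, smul_eq_mul]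
  ring

private lemma Irr_swap (s X : Matrix (Fin n) (Fin n) F) (hs : IsUnit s.det) (u : Fin n → F) :
    X.mulVec (s.mulVec u) = s.mulVec ((s⁻¹ * X * s).mulVec u) := by
  rw [Matrix.mulVec_mulVec, Matrix.mulVec_mulVec]
  congr 1
  have e1 : s * s⁻¹ = 1 := Matrix.mul_nonsing_inv s hs
  calc X * s = (s * s⁻¹) * X * s := by rw [e1, one_mul]
    _ = s * (s⁻¹ * X * s) := by simp only [mul_assoc]

private lemma Irr_step (g : Submodule F (Matrix (Fin n) (Fin n) F)) {t c : F}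
    (ht : t ≠ 0) (ht1 : t ≠ -1) (hc : c ≠ 0) {v φ : Fin n → F} (hv : φ ⬝ᵥ v = 1)
    (s : Matrix (Fin n) (Fin n) F) (hs : s = c • (1 + (t - 1) • Matrix.vecMulVec v φ))
    (hu : IsUnit s.det) (hg : ∀ X ∈ g, s⁻¹ * X * s ∈ g)
    (χ : Matrix (Fin n) (Fin n) F → F) (u : Fin n → F)
    (hW : ∀ X ∈ g, X.mulVec u = χ X • u) :
    ∀ X ∈ g, X.mulVec (s.mulVec u) = χ X • s.mulVec u := by
  intro X hX
  by_cases u0 : u = 0
  · simp [u0]
  have g1 := hg X hX
  have g2 := hg _ g1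
  have e1 : X.mulVec (s.mulVec u) = χ (s⁻¹ * X * s) • s.mulVec u := by
    rw [Irr_swap s X hu u, hW _ g1, Matrix.mulVec_smul]
  have e2 : X.mulVec (s.mulVec (s.mulVec u)) =
      χ (s⁻¹ * (s⁻¹ * X * s) * s) • s.mulVec (s.mulVec u) := by
    rw [Irr_swap s X hu (s.mulVec u), Irr_swap s (s⁻¹ * X * s) hu u, hW _ g2, Matrix.mulVec_smul,
      Matrix.mulVec_smul]
  have sq := Irr_sq t c v φ u hv s hs
  rw [sq, Matrix.mulVec_sub, Matrix.mulVec_smul, Matrix.mulVec_smul, e1, hW X hX] at e2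
  set x1 := χ (s⁻¹ * X * s) with hx1
  set x2 := χ (s⁻¹ * (s⁻¹ * X * s) * s) with hx2
  set y := s.mulVec u with hy
  have hb : c * (1 + t) ≠ 0 := by
    refine mul_ne_zero hc ?_
    intro h
    apply ht1
    linear_combination h
  have ha : c ^ 2 * t ≠ 0 := mul_ne_zero (pow_ne_zero 2 hc) ht
  have e3 : (c * (1 + t) * (x1 - x2)) • y = (c ^ 2 * t * (χ X - x2)) • u := by
    ext i
    have := congrFun e2 i
    simp only [Pi.sub_apply, Pi.smul_apply, smul_eq_mul] at this ⊢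
    linear_combination this
  by_cases h12 : x1 = x2
  · rw [h12, sub_self, mul_zero, zero_smul] at e3
    have e4 := (smul_eq_zero.mp e3.symm).resolve_right u0
    have e5 : χ X - x2 = 0 := (mul_eq_zero.mp e4).resolve_left ha
    rw [e1, h12]
    rw [sub_eq_zero.mp e5]
  · have hk : c * (1 + t) * (x1 - x2) ≠ 0 := mul_ne_zero hb (sub_ne_zero.mpr h12)
    have e4 : y = ((c * (1 + t) * (x1 - x2))⁻¹ * (c ^ 2 * t * (χ X - x2))) • u := by
      rw [mul_smul, ← e3, smul_smul, inv_mul_cancel₀ hk, one_smul]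
    rw [e4, Matrix.mulVec_smul, hW X hX, smul_comm]

theorem g_irr [CharZero F] (g : Submodule F (Matrix (Fin n) (Fin n) F))
    (tr : ∀ X ∈ g, X.trace = 0) (hne : ∃ X ∈ g, X ≠ 0)
    (T : Set (Matrix (Fin n) (Fin n) F))
    (hT : ∀ s ∈ T, (∃ t, t ≠ 0 ∧ t ≠ -1 ∧ IsRf t s) ∧ ∀ X ∈ g, s * X * s⁻¹ ∈ g)
    (irr : ∀ U : Submodule F (Fin n → F), (∀ s ∈ T, ∀ u ∈ U, s.mulVec u ∈ U) → U = ⊥ ∨ U = ⊤)
    (U : Submodule F (Fin n → F)) (hU : ∀ X ∈ g, ∀ u ∈ U, X.mulVec u ∈ U) : U = ⊥ ∨ U = ⊤ := by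
  by_cases hU0 : U = ⊥
  · exact Or.inl hU0
  right
  have hdet : ∀ s ∈ T, IsUnit s.det := by
    intro s hs
    obtain ⟨⟨t, ht, -, hr⟩, -⟩ := hT s hs
    exact rf_unit ht hr
  have hconj : ∀ s ∈ T, ∀ X ∈ g, s⁻¹ * X * s ∈ g := fun s hs =>
    Irr_conj g s (hdet s hs) (hT s hs).2
  obtain ⟨M, ⟨hM0, hMU, hMg⟩, hMmin⟩ := (wellFounded_lt (α := Submodule F (Fin n → F))).has_min
    {M | M ≠ ⊥ ∧ M ≤ U ∧ ∀ X ∈ g, ∀ u ∈ M, X.mulVec u ∈ M} ⟨U, hU0, le_refl U, hU⟩
  by_cases hall : ∀ s ∈ T, ∀ u ∈ M, s.mulVec u ∈ M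
  · rcases irr M hall with h | h
    · exact absurd h hM0
    · rw [h] at hMU
      exact top_le_iff.mp hMU
  exfalso
  push Not at hall
  obtain ⟨s, hs, u1, hu1, hsu1⟩ := hall
  have hinter : ∀ m ∈ M, s.mulVec m ∈ M → m = 0 := by
    set N : Submodule F (Fin n → F) := M ⊓ M.map s.mulVecLin with hN
    have hNbot : N = ⊥ := by
      by_contra hN0
      have hNM : N ≤ M := inf_le_left
      have hNg : ∀ X ∈ g, ∀ u ∈ N, X.mulVec u ∈ N := by
        intro X hX u hu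
        refine ⟨hMg X hX u hu.1, ?_⟩
        obtain ⟨m, hm, hmu⟩ := hu.2
        refine ⟨(s⁻¹ * X * s).mulVec m, hMg _ (hconj s hs X hX) m hm, ?_⟩
        rw [Matrix.mulVecLin_apply, ← Irr_swap s X (hdet s hs) m]
        rw [Matrix.mulVecLin_apply] at hmu
        rw [hmu]
      have hnlt := hMmin N ⟨hN0, hNM.trans hMU, hNg⟩
      have hNeq : N = M := by
        rcases hNM.lt_or_eq with h | h
        · exact absurd h hnlt
        · exact h
      have hle : M ≤ M.map s.mulVecLin := by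
        rw [← hNeq]
        calc N ≤ M.map s.mulVecLin := inf_le_right
          _ = N.map s.mulVecLin := by rw [hNeq]
      have heq : M = M.map s.mulVecLin :=
        Submodule.eq_of_le_of_finrank_le hle (Submodule.finrank_map_le _ _)
      apply hsu1
      rw [heq]
      exact ⟨u1, hu1, rfl⟩
    intro m hm hsm
    have h1 : s.mulVec m ∈ N := ⟨hsm, ⟨m, hm, rfl⟩⟩
    rw [hNbot, Submodule.mem_bot] at h1
    have e1 : s⁻¹ * s = 1 := Matrix.nonsing_inv_mul s (hdet s hs)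
    have h2 : (s⁻¹ * s).mulVec m = 0 := by
      rw [← Matrix.mulVec_mulVec, h1, Matrix.mulVec_zero]
    rwa [e1, Matrix.one_mulVec] at h2
  obtain ⟨⟨t, ht, ht1, c, v, φ, hc, hv, hsf⟩, -⟩ := hT s hs
  have hker : ∀ m ∈ M, φ ⬝ᵥ m = 0 → m = 0 := by
    intro m hm hφ
    apply hinter m hm
    rw [hsf, Irr_act, hφ, mul_zero, zero_smul, add_zero]
    exact M.smul_mem c hm
  obtain ⟨m0, hm0, hm0'⟩ := (Submodule.ne_bot_iff M).mp hM0
  have hφ0 : φ ⬝ᵥ m0 ≠ 0 := fun h => hm0' (hker m0 hm0 h)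
  have hline : ∀ m ∈ M, m = ((φ ⬝ᵥ m) / (φ ⬝ᵥ m0)) • m0 := by
    intro m hm
    have h1 : m - ((φ ⬝ᵥ m) / (φ ⬝ᵥ m0)) • m0 = 0 := by
      apply hker _ (M.sub_mem hm (M.smul_mem _ hm0))
      rw [dotProduct_sub, dotProduct_smul, smul_eq_mul, div_mul_cancel₀ _ hφ0, sub_self]
    exact sub_eq_zero.mp h1
  let χ : Matrix (Fin n) (Fin n) F → F := fun X => (φ ⬝ᵥ (X.mulVec m0)) / (φ ⬝ᵥ m0)
  let W : Submodule F (Fin n → F) :=
    { carrier := {u | ∀ X ∈ g, X.mulVec u = χ X • u}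
      add_mem' := by
        intro a b ha hb X hX
        rw [Matrix.mulVec_add, ha X hX, hb X hX, smul_add]
      zero_mem' := by
        intro X hX
        rw [Matrix.mulVec_zero, smul_zero]
      smul_mem' := by
        intro a u hu X hX
        rw [Matrix.mulVec_smul, hu X hX, smul_comm] }
  have hWT : ∀ s ∈ T, ∀ u ∈ W, s.mulVec u ∈ W := by
    intro s' hs' u hu
    obtain ⟨⟨t', ht', ht1', c', v', φ', hc', hv', hsf'⟩, -⟩ := hT s' hs'
    exact Irr_step g ht' ht1' hc' hv' s' hsf' (hdet s' hs') (hconj s' hs') χ u hu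
  have hm0W : m0 ∈ W := fun X hX => hline _ (hMg X hX m0 hm0)
  have hWtop : W = ⊤ := by
    rcases irr W hWT with h | h
    · rw [h, Submodule.mem_bot] at hm0W
      exact absurd hm0W hm0'
    · exact h
  obtain ⟨X, hX, hX0⟩ := hne
  apply hX0
  have hsc : X = χ X • (1 : Matrix (Fin n) (Fin n) F) := by
    have h1 : ∀ u : Fin n → F, X.mulVec u = (χ X • (1 : Matrix (Fin n) (Fin n) F)).mulVec u := by
      intro u
      have hu : u ∈ W := by rw [hWtop]; exact Submodule.mem_top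
      rw [hu X hX, Matrix.smul_mulVec, Matrix.one_mulVec]
    exact Matrix.mulVec_injective (funext h1)
  have hn : (n : F) ≠ 0 := by
    rw [Nat.cast_ne_zero]
    rintro rfl
    exact hm0' (Subsingleton.elim _ _)
  have htr := tr X hX
  rw [hsc, Matrix.trace_smul, Matrix.trace_one, Fintype.card_fin, smul_eq_mul] at htr
  have hχ : χ X = 0 := (mul_eq_zero.mp htr).resolve_right hn
  rw [hsc, hχ, zero_smul]

end Pool.Agent.MUG
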