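import Pool.Agent.MUG.Der

/-!
# MUG: translations of polynomials
-/

set_option linter.unusedSectionVars false
set_option linter.unusedVariables false

namespace Pool.Agent.MUG

open Pool.Agent.MUW

universe w

variable {F : Type w} [Field F] {l : ℕ} {r : Fin l → ℕ}

/-- `(Mv g k p)(h) = p(g h k)` -/
noncomputable def Mv (g k : Tup F r) :
    MvPolynomial (Crd r) F →ₐ[F] MvPolynomial (Crd r) F :=
  MvPolynomial.aeval fun x => ∑ y, ∑ z,
    MvPolynomial.C (g x.1 x.2.1 y * k x.1 z x.2.2) * MvPolynomial.X ⟨x.1, (y, z)⟩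

private theorem h8mv_X (g k : Tup F r) (x : Crd r) :
    Mv g k (MvPolynomial.X x) = ∑ y, ∑ z,
      MvPolynomial.C (g x.1 x.2.1 y * k x.1 z x.2.2) * MvPolynomial.X ⟨x.1, (y, z)⟩ := by
  unfold Mv
  rw [MvPolynomial.aeval_X]

private theorem h8mv_C (g k : Tup F r) (a : F) :
    Mv g k (MvPolynomial.C a) = MvPolynomial.C a := by
  unfold Mv
  rw [MvPolynomial.aeval_C, MvPolynomial.algebraMap_eq]

private theorem h8mv_dX (X : Tup F r) (x : Crd r) :
    Dv X (MvPolynomial.X x) =
      ∑ y, MvPolynomial.C (X x.1 y x.2.2) * MvPolynomial.X ⟨x.1, (x.2.1, y)⟩ := by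
  unfold Dv
  rw [MvPolynomial.mkDerivation_X]

private theorem h8mv_dC (X : Tup F r) (a : F) : Dv X (MvPolynomial.C a) = 0 :=
  (Dv X).map_algebraMap a

private theorem h8mv_dCm (X : Tup F r) (a : F) (p : MvPolynomial (Crd r) F) :
    Dv X (MvPolynomial.C a * p) = MvPolynomial.C a * Dv X p := by
  rw [Derivation.leibniz, h8mv_dC, smul_zero, add_zero, smul_eq_mul]

private theorem h8mv_dsum (X : Tup F r) {ι : Type} (s : Finset ι)
    (f : ι → MvPolynomial (Crd r) F) :
    Dv X (∑ i ∈ s, f i) = ∑ i ∈ s, Dv X (f i) := map_sum (Dv X) f s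

theorem eval_mv (g k h : Tup F r) (p : MvPolynomial (Crd r) F) :
    MvPolynomial.eval (crd h) (Mv g k p) = MvPolynomial.eval (crd fun i => g i * h i * k i) p := by
  induction p using MvPolynomial.induction_on with
  | C a => rw [h8mv_C, MvPolynomial.eval_C, MvPolynomial.eval_C]
  | add p q hp hq => rw [map_add, map_add, map_add, hp, hq]
  | mul_X p x hp =>
    rw [map_mul, map_mul, map_mul, hp, MvPolynomial.eval_X, h8mv_X, map_sum]
    congr 1
    show _ = (g x.1 * h x.1 * k x.1) x.2.1 x.2.2
    rw [Matrix.mul_apply]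
    rw [Finset.sum_congr rfl fun y _ => map_sum (MvPolynomial.eval (crd h)) _ _,
      Finset.sum_comm]
    refine Finset.sum_congr rfl fun z _ => ?_
    rw [Matrix.mul_apply, Finset.sum_mul]
    refine Finset.sum_congr rfl fun y _ => ?_
    rw [map_mul, MvPolynomial.eval_C, MvPolynomial.eval_X]
    show g x.1 x.2.1 y * k x.1 z x.2.2 * h x.1 y z = _
    ring

/-- left translations commute with the left invariant derivations -/
theorem dv_mv (g X : Tup F r) (p : MvPolynomial (Crd r) F) :
    Dv X (Mv g (fun _ => 1) p) = Mv g (fun _ => 1) (Dv X p) := by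
  induction p using MvPolynomial.induction_on with
  | C a => rw [h8mv_C, h8mv_dC, map_zero]
  | add p q hp hq => rw [map_add, map_add, map_add, map_add, hp, hq]
  | mul_X p x hp =>
    have h1 : Dv X (Mv g (fun _ => 1) (MvPolynomial.X x)) =
        Mv g (fun _ => 1) (Dv X (MvPolynomial.X x)) := by
      have h2 : Dv X (Mv g (fun _ => 1) (MvPolynomial.X x)) = ∑ y, ∑ z,
          MvPolynomial.C (g x.1 x.2.1 y * (1 : Matrix (Fin (r x.1)) (Fin (r x.1)) F) z x.2.2) *
            ∑ u, MvPolynomial.C (X x.1 u z) * MvPolynomial.X ⟨x.1, (y, u)⟩ := by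
        rw [h8mv_X, h8mv_dsum]
        refine Finset.sum_congr rfl fun y _ => ?_
        rw [h8mv_dsum]
        refine Finset.sum_congr rfl fun z _ => ?_
        rw [h8mv_dCm, h8mv_dX]
      have h3 : Mv g (fun _ => 1) (Dv X (MvPolynomial.X x)) = ∑ u,
          MvPolynomial.C (X x.1 u x.2.2) * ∑ y, ∑ z,
            MvPolynomial.C (g x.1 x.2.1 y * (1 : Matrix (Fin (r x.1)) (Fin (r x.1)) F) z u) *
              MvPolynomial.X ⟨x.1, (y, z)⟩ := by
        rw [h8mv_dX, map_sum]
        refine Finset.sum_congr rfl fun u _ => ?_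
        rw [map_mul, h8mv_C, h8mv_X]
      rw [h2, h3]
      have h4 : ∀ y, (∑ z, (MvPolynomial.C
          (g x.1 x.2.1 y * (1 : Matrix (Fin (r x.1)) (Fin (r x.1)) F) z x.2.2) *
            ∑ u, MvPolynomial.C (X x.1 u z) * MvPolynomial.X ⟨x.1, (y, u)⟩ :
              MvPolynomial (Crd r) F)) =
          ∑ u, MvPolynomial.C (X x.1 u x.2.2) *
            (MvPolynomial.C (g x.1 x.2.1 y) * MvPolynomial.X ⟨x.1, (y, u)⟩) := by
        intro y
        rw [Finset.sum_eq_single x.2.2]
        · rw [Matrix.one_apply_eq, mul_one, Finset.mul_sum]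
          refine Finset.sum_congr rfl fun u _ => ?_
          ring
        · intro z _ hz
          rw [Matrix.one_apply_ne hz, mul_zero, map_zero, zero_mul]
        · intro hz
          exact absurd (Finset.mem_univ _) hz
      have h5 : ∀ u : Fin (r x.1), (∑ y, ∑ z, (MvPolynomial.C
          (g x.1 x.2.1 y * (1 : Matrix (Fin (r x.1)) (Fin (r x.1)) F) z u) *
              MvPolynomial.X ⟨x.1, (y, z)⟩ : MvPolynomial (Crd r) F)) =
          ∑ y, MvPolynomial.C (g x.1 x.2.1 y) * MvPolynomial.X ⟨x.1, (y, u)⟩ := by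
        intro u
        refine Finset.sum_congr rfl fun y _ => ?_
        rw [Finset.sum_eq_single u]
        · rw [Matrix.one_apply_eq, mul_one]
        · intro z _ hz
          rw [Matrix.one_apply_ne hz, mul_zero, map_zero, zero_mul]
        · intro hz
          exact absurd (Finset.mem_univ _) hz
      rw [Finset.sum_congr rfl fun y _ => h4 y, Finset.sum_comm]
      refine Finset.sum_congr rfl fun u _ => ?_
      rw [h5 u, Finset.mul_sum]
    rw [map_mul, Derivation.leibniz, Derivation.leibniz, map_add, smul_eq_mul, smul_eq_mul,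
      smul_eq_mul, smul_eq_mul, map_mul, map_mul, hp, h1]

theorem dv_conj (g k X : Tup F r) (hgk : ∀ i, g i * k i = 1) (p : MvPolynomial (Crd r) F) :
    MvPolynomial.eval (crd fun _ => 1) (Dv X (Mv g k p)) =
      MvPolynomial.eval (crd fun _ => 1) (Dv (fun i => g i * X i * k i) p) := by
  have h0 : ∀ q : MvPolynomial (Crd r) F,
      MvPolynomial.eval (crd fun _ => 1) (Mv g k q) = MvPolynomial.eval (crd fun _ => 1) q := by
    intro q
    have h9 : (fun i => g i * (1 : Matrix (Fin (r i)) (Fin (r i)) F) * k i) = fun _ => 1 := by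
      funext i
      rw [mul_one, hgk]
    rw [eval_mv, h9]
  induction p using MvPolynomial.induction_on with
  | C a => rw [h8mv_C, h8mv_dC, h8mv_dC]
  | add p q hp hq => rw [map_add, map_add, map_add, map_add, map_add, hp, hq]
  | mul_X p x hp =>
    have h1 : MvPolynomial.eval (crd fun _ => 1) (Dv X (Mv g k (MvPolynomial.X x))) =
        MvPolynomial.eval (crd fun _ => 1) (Dv (fun i => g i * X i * k i) (MvPolynomial.X x)) := by
      have h2 : MvPolynomial.eval (crd fun _ => 1) (Dv X (Mv g k (MvPolynomial.X x))) =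
          ∑ y, ∑ z, (g x.1 x.2.1 y * k x.1 z x.2.2) * X x.1 y z := by
        rw [h8mv_X, h8mv_dsum, map_sum]
        refine Finset.sum_congr rfl fun y _ => ?_
        rw [h8mv_dsum, map_sum]
        refine Finset.sum_congr rfl fun z _ => ?_
        rw [h8mv_dCm, h8mv_dX, map_mul, MvPolynomial.eval_C, map_sum]
        congr 1
        rw [Finset.sum_eq_single y]
        · rw [map_mul, MvPolynomial.eval_C, MvPolynomial.eval_X]
          show X x.1 y z * (1 : Matrix (Fin (r x.1)) (Fin (r x.1)) F) y y = _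
          rw [Matrix.one_apply_eq, mul_one]
        · intro u _ hu
          rw [map_mul, MvPolynomial.eval_C, MvPolynomial.eval_X]
          show X x.1 u z * (1 : Matrix (Fin (r x.1)) (Fin (r x.1)) F) y u = _
          rw [Matrix.one_apply_ne (Ne.symm hu), mul_zero]
        · intro hu
          exact absurd (Finset.mem_univ _) hu
      have h3 : MvPolynomial.eval (crd fun _ => 1)
          (Dv (fun i => g i * X i * k i) (MvPolynomial.X x)) =
          (g x.1 * X x.1 * k x.1) x.2.1 x.2.2 := by
        rw [h8mv_dX, map_sum, Finset.sum_eq_single x.2.1]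
        · rw [map_mul, MvPolynomial.eval_C, MvPolynomial.eval_X]
          show (g x.1 * X x.1 * k x.1) x.2.1 x.2.2 *
            (1 : Matrix (Fin (r x.1)) (Fin (r x.1)) F) x.2.1 x.2.1 = _
          rw [Matrix.one_apply_eq, mul_one]
        · intro u _ hu
          rw [map_mul, MvPolynomial.eval_C, MvPolynomial.eval_X]
          show (g x.1 * X x.1 * k x.1) u x.2.2 *
            (1 : Matrix (Fin (r x.1)) (Fin (r x.1)) F) x.2.1 u = _
          rw [Matrix.one_apply_ne (Ne.symm hu), mul_zero]
        · intro hu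
          exact absurd (Finset.mem_univ _) hu
      rw [h2, h3, Matrix.mul_apply, Finset.sum_comm]
      refine Finset.sum_congr rfl fun z _ => ?_
      rw [Matrix.mul_apply, Finset.sum_mul]
      refine Finset.sum_congr rfl fun y _ => ?_
      ring
    rw [map_mul, Derivation.leibniz, Derivation.leibniz, map_add, map_add, smul_eq_mul,
      smul_eq_mul, smul_eq_mul, smul_eq_mul, map_mul, map_mul, map_mul, map_mul, h0, h0, hp, h1]

end Pool.Agent.MUG
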