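import Pool.Agent.MUT.Hom
import Pool.Agent.KTT.Main

/-!
# MUG: regularity of the thick category follows from the Tate property and semisimplicity

Equivariant maps `H(Y) → H(X)` are algebraic if the invariants of `H(X ⊗ Yᘁ)` are; if `C` and `H` are `F`-linear,
algebraic maps are realisations of morphisms; hence every morphism `f` between thick objects has a `g` with
`f g f = f`.
-/

set_option linter.unusedSectionVars false
set_option linter.unusedVariables false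

namespace Pool.Agent.MUG

open CategoryTheory MonoidalCategory Limits TensorProduct Pool.Agent.KTT Pool.Agent.MUT
  Pool.Agent.KMN

universe v u w w'

private theorem hz2 {C : Type u} [Category.{v} C] [MonoidalCategory C] {D : Type*} [Category* D]
    [MonoidalCategory D] (H : C ⥤ D) [H.Monoidal] (X Y : C) [ExactPairing X Y] :
    (Functor.LaxMonoidal.ε H ≫ H.map (η_ X Y) ≫ Functor.OplaxMonoidal.δ H X Y) ▷ H.obj X ≫
      (α_ (H.obj X) (H.obj Y) (H.obj X)).hom ≫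
      H.obj X ◁ (Functor.LaxMonoidal.μ H Y X ≫ H.map (ε_ X Y) ≫ Functor.OplaxMonoidal.η H) =
      (λ_ (H.obj X)).hom ≫ (ρ_ (H.obj X)).inv := by
  have h := congrArg H.map (ExactPairing.evaluation_coevaluation X Y)
  rw [H.map_comp, H.map_comp, H.map_comp, Functor.Monoidal.map_whiskerLeft,
    Functor.Monoidal.map_whiskerRight,
    Functor.Monoidal.map_associator, Functor.Monoidal.map_leftUnitor,
    Functor.Monoidal.map_rightUnitor_inv] at h
  simp only [Category.assoc, Functor.Monoidal.μ_δ_assoc] at h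
  have h2 := congrArg (fun f => (Functor.LaxMonoidal.ε H ▷ H.obj X ≫
    Functor.LaxMonoidal.μ H (𝟙_ C) X) ≫ f ≫
    (Functor.OplaxMonoidal.δ H X (𝟙_ C) ≫ H.obj X ◁ Functor.OplaxMonoidal.η H)) h
  simp only [Category.assoc, Functor.Monoidal.μ_δ_assoc, Functor.Monoidal.whiskerRight_ε_η_assoc,
    Functor.Monoidal.whiskerLeft_ε_η, Category.comp_id] at h2
  simp only [MonoidalCategory.whiskerLeft_comp, comp_whiskerRight, Category.assoc]
  exact h2

/-- the contraction `V ⊗ W → V` with the second factor, given by `x` -/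
private noncomputable def ct {F : Type w} [Field F] {V W : ModuleCat.{w} F}
    (e : W ⊗ V ⟶ 𝟙_ (ModuleCat.{w} F)) (x : V) : (V ⊗[F] W) →ₗ[F] V :=
  TensorProduct.lift (((LinearMap.lsmul F V).flip).compr₂ (LinearMap.id : V →ₗ[F] V) |>.comp
    (LinearMap.id : V →ₗ[F] V) |>.compl₂ (e.hom.comp ((TensorProduct.mk F W V).flip x)))

private theorem ct_tmul {F : Type w} [Field F] {V W : ModuleCat.{w} F}
    (e : W ⊗ V ⟶ 𝟙_ (ModuleCat.{w} F)) (x : V) (a : V) (b : W) :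
    ct e x (a ⊗ₜ[F] b) = (e.hom (b ⊗ₜ[F] x) : F) • a := rfl

private theorem zig {F : Type w} [Field F] (V W : ModuleCat.{w} F)
    (c : 𝟙_ (ModuleCat.{w} F) ⟶ V ⊗ W) (e : W ⊗ V ⟶ 𝟙_ (ModuleCat.{w} F))
    (h : c ▷ V ≫ (α_ V W V).hom ≫ V ◁ e = (λ_ V).hom ≫ (ρ_ V).inv) (x : V) :
    ct e x (c.hom (1 : F)) = x := by
  have key : ∀ t : (V ⊗ W : ModuleCat.{w} F),
      (ρ_ V).hom.hom ((V ◁ e).hom ((α_ V W V).hom.hom (t ⊗ₜ[F] x))) = ct e x t := by
    intro t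
    induction t using TensorProduct.induction_on with
    | zero => rw [TensorProduct.zero_tmul, map_zero, map_zero, map_zero, map_zero]
    | tmul a b => rfl
    | add s t hs ht => rw [TensorProduct.add_tmul, map_add, map_add, map_add, map_add, hs, ht]
  have h4 := congrArg (fun f => (ρ_ V).hom.hom (f.hom ((1 : F) ⊗ₜ[F] x))) h
  have h5 : (c ▷ V ≫ (α_ V W V).hom ≫ V ◁ e).hom ((1 : F) ⊗ₜ[F] x) =
      (V ◁ e).hom ((α_ V W V).hom.hom (c.hom (1 : F) ⊗ₜ[F] x)) := rfl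
  have h6 : (ρ_ V).hom.hom (((λ_ V).hom ≫ (ρ_ V).inv).hom ((1 : F) ⊗ₜ[F] x)) = x := by
    have h7 : (ρ_ V).hom.hom (((λ_ V).hom ≫ (ρ_ V).inv).hom ((1 : F) ⊗ₜ[F] x)) =
      (((λ_ V).hom ≫ (ρ_ V).inv) ≫ (ρ_ V).hom).hom ((1 : F) ⊗ₜ[F] x) := rfl
    rw [h7, Category.assoc, Iso.inv_hom_id, Category.comp_id]
    exact one_smul F x
  rw [← key]
  exact h4.trans h6

variable {C : Type u} [Category.{v} C] [MonoidalCategory C]
  {F : Type w} [Field F] {H : C ⥤ ModuleCat.{w} F} [H.Monoidal]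
  {G : Type w'} [Group G] {ρ : G →* Aut H}

/-- the map `f_v` -/
private noncomputable def fv (H : C ⥤ ModuleCat.{w} F) [H.Monoidal] (X Y : C)
    [HasRightDual Y] : H.obj (X ⊗ Yᘁ) →ₗ[F] H.obj Y →ₗ[F] H.obj X :=
  (TensorProduct.mk F (H.obj (X ⊗ Yᘁ)) (H.obj Y)).compr₂
    ((H.map ((α_ X Yᘁ Y).hom ≫ X ◁ ε_ Y Yᘁ ≫ (ρ_ X).hom)).hom ∘ₗ
      (Functor.LaxMonoidal.μ H (X ⊗ Yᘁ) Y).hom)

private theorem fv_apply (X Y : C) [HasRightDual Y] (v : H.obj (X ⊗ Yᘁ)) (y : H.obj Y) :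
    fv H X Y v y = (H.map ((α_ X Yᘁ Y).hom ≫ X ◁ ε_ Y Yᘁ ≫ (ρ_ X).hom)).hom (tm H v y) :=
  rfl

/-- the pairing -/
private noncomputable def pe (H : C ⥤ ModuleCat.{w} F) [H.Monoidal] (Y : C)
    [HasRightDual Y] : H.obj Yᘁ ⊗ H.obj Y ⟶ 𝟙_ (ModuleCat.{w} F) :=
  Functor.LaxMonoidal.μ H Yᘁ Y ≫ H.map (ε_ Y Yᘁ) ≫ Functor.OplaxMonoidal.η H

private noncomputable def pc (H : C ⥤ ModuleCat.{w} F) [H.Monoidal] (Y : C)
    [HasRightDual Y] : 𝟙_ (ModuleCat.{w} F) ⟶ H.obj Y ⊗ H.obj Yᘁ :=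
  Functor.LaxMonoidal.ε H ≫ H.map (η_ Y Yᘁ) ≫ Functor.OplaxMonoidal.δ H Y Yᘁ

private theorem eq_un (w : H.obj (𝟙_ C)) :
    w = ((Functor.OplaxMonoidal.η H).hom w : F) • un H := by
  have h1 := congrArg (fun f => f.hom w) (Functor.Monoidal.η_ε H)
  have h2 : (Functor.LaxMonoidal.ε H).hom ((Functor.OplaxMonoidal.η H).hom w) = w := h1
  have h3 : (Functor.LaxMonoidal.ε H).hom (((Functor.OplaxMonoidal.η H).hom w : F) • (1 : F)) =
      ((Functor.OplaxMonoidal.η H).hom w : F) • (Functor.LaxMonoidal.ε H).hom (1 : F) :=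
    map_smul _ _ _
  rw [smul_eq_mul, mul_one] at h3
  exact h2.symm.trans h3

private theorem fv_tm (X Y : C) [HasRightDual Y] (x : H.obj X) (y' : H.obj Yᘁ)
    (a : H.obj Y) : fv H X Y (tm H x y') a = ((pe H Y).hom (y' ⊗ₜ[F] a) : F) • x := by
  rw [fv_apply, H.map_comp, H.map_comp]
  have h1 : (H.map (α_ X Yᘁ Y).hom ≫ H.map (X ◁ ε_ Y Yᘁ) ≫ H.map (ρ_ X).hom).hom
      (tm H (tm H x y') a) = (H.map (ρ_ X).hom).hom ((H.map (X ◁ ε_ Y Yᘁ)).hom
        ((H.map (α_ X Yᘁ Y).hom).hom (tm H (tm H x y') a))) := rfl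
  rw [h1, assoc_tm, ← id_tensorHom, map_tm, H.map_id]
  have h2 : (pe H Y).hom (y' ⊗ₜ[F] a) =
      (Functor.OplaxMonoidal.η H).hom ((H.map (ε_ Y Yᘁ)).hom (tm H y' a)) := rfl
  rw [h2]
  have h3 := eq_un ((H.map (ε_ Y Yᘁ)).hom (tm H y' a))
  rw [h3, tm_smul_right, map_smul, ← h3]
  have h4 : (H.map (ρ_ X).hom).hom (tm H ((𝟙 (H.obj X) : H.obj X ⟶ H.obj X).hom x) (un H)) = x :=
    right_tm H x
  rw [h4]

/-- the vector `(f ⊗ 1) (η 1)` -/
private noncomputable def pv (H : C ⥤ ModuleCat.{w} F) [H.Monoidal] (X Y : C)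
    [HasRightDual Y] (f : H.obj Y →ₗ[F] H.obj X) : H.obj (X ⊗ Yᘁ) :=
  (Functor.LaxMonoidal.μ H X Yᘁ).hom (LinearMap.rTensor (H.obj Yᘁ) f ((pc H Y).hom (1 : F)))

private theorem fv_pv (X Y : C) [HasRightDual Y] (f : H.obj Y →ₗ[F] H.obj X) :
    fv H X Y (pv H X Y f) = f := by
  refine LinearMap.ext fun a => ?_
  have key : ∀ t : (H.obj Y ⊗[F] H.obj Yᘁ), fv H X Y ((Functor.LaxMonoidal.μ H X Yᘁ).hom
      (LinearMap.rTensor (H.obj Yᘁ) f t)) a = f (ct (pe H Y) a t) := by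
    intro t
    induction t using TensorProduct.induction_on with
    | zero => rw [map_zero, map_zero, map_zero, map_zero, map_zero, LinearMap.zero_apply]
    | tmul y b =>
      have h2 : (Functor.LaxMonoidal.μ H X Yᘁ).hom
        (LinearMap.rTensor (H.obj Yᘁ) f (y ⊗ₜ[F] b)) = tm H (f y) b := rfl
      rw [h2, fv_tm, ct_tmul, map_smul]
    | add s t hs ht =>
      rw [map_add, map_add, map_add, LinearMap.add_apply, hs, ht, map_add, map_add]
  unfold pv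
  rw [key]
  congr 1
  exact zig (H.obj Y) (H.obj Yᘁ) (pc H Y) (pe H Y) (hz2 H Y Yᘁ) a

private theorem fv_alg (X Y : C) [HasRightDual Y] {v : H.obj (X ⊗ Yᘁ)}
    (hv : v ∈ alg H (X ⊗ Yᘁ)) : fv H X Y v ∈ ah H Y X := by
  unfold alg at hv
  induction hv using Submodule.span_induction with
  | mem v hv =>
    obtain ⟨s, rfl⟩ := hv
    have h : fv H X Y ((H.map s).hom ((Functor.LaxMonoidal.ε H).hom (1 : F))) =
        (H.map ((λ_ Y).inv ≫ (s ⊗ₘ 𝟙 Y) ≫ (α_ X Yᘁ Y).hom ≫ X ◁ ε_ Y Yᘁ ≫ (ρ_ X).hom)).hom := by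
      refine LinearMap.ext fun a => ?_
      rw [fv_apply, H.map_comp (λ_ Y).inv, H.map_comp (s ⊗ₘ 𝟙 Y)]
      have h1 : (H.map (λ_ Y).inv ≫ H.map (s ⊗ₘ 𝟙 Y) ≫
          H.map ((α_ X Yᘁ Y).hom ≫ X ◁ ε_ Y Yᘁ ≫ (ρ_ X).hom)).hom a =
        (H.map ((α_ X Yᘁ Y).hom ≫ X ◁ ε_ Y Yᘁ ≫ (ρ_ X).hom)).hom
          ((H.map (s ⊗ₘ 𝟙 Y)).hom ((H.map (λ_ Y).inv).hom a)) := rfl
      rw [h1, left_inv_tm, map_tm, H.map_id]
      rfl
    rw [h]
    exact ah_map H _
  | zero =>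
    rw [map_zero]
    exact zero_mem _
  | add v w _ _ hv hw =>
    rw [map_add]
    exact add_mem hv hw
  | smul c v _ hv =>
    rw [map_smul]
    exact Submodule.smul_mem _ _ hv

private theorem pv_fixed (ht : ∀ g, NatTrans.IsMonoidal (ρ g).hom) (X Y : C) [HasRightDual Y]
    (f : H.obj Y →ₗ[F] H.obj X)
    (h : ∀ g y, f (((ρ g).hom.app Y).hom y) = ((ρ g).hom.app X).hom (f y)) :
    pv H X Y f ∈ fixed H ρ (X ⊗ Yᘁ) := by
  intro g
  have := ht g
  have key : ∀ t : (H.obj Y ⊗[F] H.obj Yᘁ), ((ρ g).hom.app (X ⊗ Yᘁ)).hom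
      ((Functor.LaxMonoidal.μ H X Yᘁ).hom (LinearMap.rTensor (H.obj Yᘁ) f t)) =
      (Functor.LaxMonoidal.μ H X Yᘁ).hom (LinearMap.rTensor (H.obj Yᘁ) f
        ((Functor.OplaxMonoidal.δ H Y Yᘁ).hom (((ρ g).hom.app (Y ⊗ Yᘁ)).hom
          ((Functor.LaxMonoidal.μ H Y Yᘁ).hom t)))) := by
    intro t
    induction t using TensorProduct.induction_on with
    | zero => simp only [map_zero]
    | tmul y b =>
      have h2 : (Functor.LaxMonoidal.μ H X Yᘁ).hom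
        (LinearMap.rTensor (H.obj Yᘁ) f (y ⊗ₜ[F] b)) = tm H (f y) b := rfl
      have h3 : (Functor.LaxMonoidal.μ H Y Yᘁ).hom (y ⊗ₜ[F] b) = tm H y b := rfl
      have h4 : (Functor.OplaxMonoidal.δ H Y Yᘁ).hom (tm H (((ρ g).hom.app Y).hom y)
          (((ρ g).hom.app Yᘁ).hom b)) =
          (((ρ g).hom.app Y).hom y) ⊗ₜ[F] (((ρ g).hom.app Yᘁ).hom b) :=
        LinearMap.congr_fun (congrArg ModuleCat.Hom.hom (Functor.Monoidal.μ_δ H Y Yᘁ)) _
      have h5 : (Functor.LaxMonoidal.μ H X Yᘁ).hom (LinearMap.rTensor (H.obj Yᘁ) f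
          ((((ρ g).hom.app Y).hom y) ⊗ₜ[F] (((ρ g).hom.app Yᘁ).hom b))) =
          tm H (f (((ρ g).hom.app Y).hom y)) (((ρ g).hom.app Yᘁ).hom b) := rfl
      rw [h2, h3, nat_tm H (ρ g).hom, nat_tm H (ρ g).hom, h4, h5, h]
    | add s t hs ht => simp only [map_add, hs, ht]
  have h1 : (Functor.LaxMonoidal.μ H Y Yᘁ).hom ((pc H Y).hom (1 : F)) =
      (H.map (η_ Y Yᘁ)).hom (un H) :=
    LinearMap.congr_fun (congrArg ModuleCat.Hom.hom (Functor.Monoidal.δ_μ H Y Yᘁ))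
      ((H.map (η_ Y Yᘁ)).hom (un H))
  have h2 : ((ρ g).hom.app (Y ⊗ Yᘁ)).hom ((H.map (η_ Y Yᘁ)).hom (un H)) =
      (H.map (η_ Y Yᘁ)).hom (un H) := by
    have h3 := congrArg (fun k => k.hom (un H)) ((ρ g).hom.naturality (η_ Y Yᘁ))
    have h4 : ((ρ g).hom.app (Y ⊗ Yᘁ)).hom ((H.map (η_ Y Yᘁ)).hom (un H)) =
      (H.map (η_ Y Yᘁ)).hom (((ρ g).hom.app (𝟙_ C)).hom (un H)) := h3
    rw [h4, nat_un]
  unfold pv
  rw [key, h1, h2]
  rfl

/-- equivariant maps are algebraic -/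
theorem ah_of_fixed (ht : ∀ g, NatTrans.IsMonoidal (ρ g).hom) (X Y : C) [HasRightDual Y]
    (hT : fixed H ρ (X ⊗ Yᘁ) ≤ alg H (X ⊗ Yᘁ)) (f : H.obj Y →ₗ[F] H.obj X)
    (h : ∀ g y, f (((ρ g).hom.app Y).hom y) = ((ρ g).hom.app X).hom (f y)) : f ∈ ah H Y X := by
  rw [← fv_pv X Y f]
  exact fv_alg X Y (hT (pv_fixed ht X Y f h))

omit [MonoidalCategory C] [H.Monoidal] in
private theorem nat_act {X Y : C} (f : X ⟶ Y) (g : G) (v : H.obj X) :
    ((ρ g).hom.app Y).hom ((H.map f).hom v) = (H.map f).hom (((ρ g).hom.app X).hom v) := by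
  have h := congrArg (fun k => k.hom v) ((ρ g).hom.naturality f)
  simpa only [ModuleCat.hom_comp, LinearMap.comp_apply] using h

omit [MonoidalCategory C] [H.Monoidal] in
/-- an equivariant pseudo-inverse of the realisation of a morphism -/
private theorem pseudo {X Y : C} (hX : Semisimple H ρ X) (hY : Semisimple H ρ Y) (f : X ⟶ Y) :
    ∃ γ : H.obj Y →ₗ[F] H.obj X,
      (∀ g y, γ (((ρ g).hom.app Y).hom y) = ((ρ g).hom.app X).hom (γ y)) ∧
      ∀ x, (H.map f).hom (γ ((H.map f).hom x)) = (H.map f).hom x := by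
  obtain ⟨K, hK, hKc⟩ := hX (LinearMap.ker (H.map f).hom) (fun g v hv => by
    rw [LinearMap.mem_ker] at hv ⊢
    rw [← nat_act, hv, map_zero])
  obtain ⟨Q, hQ, hQc⟩ := hY (LinearMap.range (H.map f).hom) (by
    rintro g _ ⟨v, rfl⟩
    exact ⟨_, (nat_act f g v).symm⟩)
  have hdec : ∀ x : H.obj X, ∃ k ∈ K, (H.map f).hom k = (H.map f).hom x := by
    intro x
    have hx : x ∈ LinearMap.ker (H.map f).hom ⊔ K := by rw [hKc.sup_eq_top]; trivial
    obtain ⟨a, ha, b, hb, rfl⟩ := Submodule.mem_sup.1 hx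
    refine ⟨b, hb, ?_⟩
    rw [map_add, LinearMap.mem_ker.1 ha, zero_add]
  let i : K →ₗ[F] H.obj Y := (H.map f).hom ∘ₗ K.subtype
  have hi : Function.Injective i := by
    rw [injective_iff_map_eq_zero]
    intro k hk
    exact Subtype.ext ((Submodule.disjoint_def.1 hKc.disjoint) k.1 hk k.2)
  have hr : LinearMap.range i = LinearMap.range (H.map f).hom := by
    refine le_antisymm ?_ ?_
    · rintro _ ⟨k, rfl⟩
      exact ⟨k.1, rfl⟩
    · rintro _ ⟨x, rfl⟩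
      obtain ⟨k, hk, h⟩ := hdec x
      exact ⟨⟨k, hk⟩, h⟩
  have hc : IsCompl (LinearMap.range i) Q := by rw [hr]; exact hQc
  have hl : ∀ k : K, (LinearMap.linearProjOfIsCompl Q i hi hc ((H.map f).hom k.1) : K) = k :=
    fun k => LinearMap.linearProjOfIsCompl_apply_left Q i hi hc k
  have hq : ∀ q ∈ Q, LinearMap.linearProjOfIsCompl Q i hi hc q = 0 :=
    fun q h => LinearMap.linearProjOfIsCompl_apply_right' Q i hi hc q h
  refine ⟨K.subtype ∘ₗ LinearMap.linearProjOfIsCompl Q i hi hc, ?_, ?_⟩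
  · intro g y
    have hy : y ∈ LinearMap.range (H.map f).hom ⊔ Q := by rw [hQc.sup_eq_top]; trivial
    obtain ⟨_, ⟨x, rfl⟩, q, hq1, rfl⟩ := Submodule.mem_sup.1 hy
    obtain ⟨k, hk, hkx⟩ := hdec x
    rw [← hkx, map_add, map_add, map_add, map_add, nat_act]
    rw [LinearMap.comp_apply, LinearMap.comp_apply, LinearMap.comp_apply, LinearMap.comp_apply,
      hq q hq1, hq _ (hQ g q hq1), hl ⟨k, hk⟩, hl ⟨_, hK g k hk⟩]
    simp
  · intro x
    obtain ⟨k, hk, hkx⟩ := hdec x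
    rw [← hkx, LinearMap.comp_apply, hl ⟨k, hk⟩]
    rfl

section

variable [Preadditive C] [Linear F C] [H.Additive] [H.Linear F]

omit [MonoidalCategory C] [H.Monoidal] in
/-- algebraic maps are realisations of morphisms -/
theorem real_of_ah {X Y : C} {f : H.obj X →ₗ[F] H.obj Y} (hf : f ∈ ah H X Y) :
    ∃ s : X ⟶ Y, f = (H.map s).hom := by
  unfold ah at hf
  induction hf using Submodule.span_induction with
  | mem f hf => exact hf
  | zero => exact ⟨0, by rw [H.map_zero, ModuleCat.hom_zero]⟩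
  | add f g _ _ hf hg =>
    obtain ⟨s, rfl⟩ := hf
    obtain ⟨t, rfl⟩ := hg
    exact ⟨s + t, by rw [H.map_add, ModuleCat.hom_add]⟩
  | smul c f _ hf =>
    obtain ⟨s, rfl⟩ := hf
    exact ⟨c • s, by rw [Functor.map_smul, ModuleCat.hom_smul]⟩

/-- a morphism `f` has a `g` with `f g f = f` -/
theorem regular [H.Faithful] (ht : ∀ g, NatTrans.IsMonoidal (ρ g).hom) {X Y : C}
    [HasRightDual Y] (hX : Semisimple H ρ X) (hY : Semisimple H ρ Y)
    (hT : fixed H ρ (X ⊗ Yᘁ) ≤ alg H (X ⊗ Yᘁ)) (f : X ⟶ Y) : ∃ g : Y ⟶ X, f ≫ g ≫ f = f := by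
  obtain ⟨γ, h1, h2⟩ := pseudo hX hY f
  obtain ⟨g, rfl⟩ := real_of_ah (ah_of_fixed ht X Y hT γ h1)
  refine ⟨g, H.map_injective (ModuleCat.hom_ext (LinearMap.ext fun x => ?_))⟩
  have h3 : (H.map (f ≫ g ≫ f)).hom x = (H.map f).hom ((H.map g).hom ((H.map f).hom x)) := by
    rw [H.map_comp, H.map_comp]
    rfl
  rw [h3, h2]

end

/-- The Tate property and semisimplicity of tensor words imply those of `Gen`. -/
theorem gen_of_words {C : Type u} [Category.{v} C] [Preadditive C] [HasBinaryBiproducts C]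
    [MonoidalCategory C] [MonoidalPreadditive C] [RightRigidCategory C]
    {F : Type w} [Field F] [CharZero F] [Linear F C] (H : C ⥤ ModuleCat.{w} F) [H.Additive]
    [H.Linear F] [H.Monoidal] [H.Faithful] {G : Type w'} [Group G] (ρ : G →* Aut H)
    (ht : ∀ g, NatTrans.IsMonoidal (ρ g).hom) (B : C)
    (words : ∀ W, Word B W → fixed H ρ W ≤ alg H W ∧ Semisimple H ρ W)
    (Y : C) (hY : Gen H B Y) : fixed H ρ Y ≤ alg H Y ∧ Semisimple H ρ Y := by
  have hth : ∀ X, Thick B X → fixed H ρ X ≤ alg H X ∧ Semisimple H ρ X :=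
    thick_induction B (fun M => fixed H ρ M ≤ alg H M ∧ Semisimple H ρ M) words
      (fun X Y hX hY => ⟨tate_sum H ρ X Y hX.1 hY.1, semisimple_sum H ρ X Y hX.2 hY.2⟩)
      (fun X Y i p hip hY => ⟨tate_retract H ρ X Y i p hip hY.1,
        semisimple_retract H ρ X Y i p hip hY.2⟩)
  refine KTT.main H ρ B (fun X X' hX hX' f => ?_) words Y hY
  exact regular ht (hth X hX).2 (hth X' hX').2 (hth _ (Thick.tensor _ _ hX (Thick.dual _ hX'))).1 f

end Pool.Agent.MUG
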