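import Pool.Agent.MUG.Mat

/-!
# MUG: transvections generate `SL`

Mathlib: `Matrix.Pivot.exists_list_transvec_mul_diagonal_mul_list_transvec`; a diagonal matrix of determinant one is a
product of matrices `diag(1, …, a, …, a⁻¹, …, 1)`, and these are products of four transvections.
-/

set_option linter.unusedSectionVars false
set_option linter.unusedVariables false
set_option linter.unusedSimpArgs false

namespace Pool.Agent.MUG

open Pool.Agent.MUW

universe w

variable {F : Type w} [Field F] {n : ℕ}

private theorem slnA_four {i j : Fin n} (hij : i ≠ j) (a : F) (ha : a ≠ 0) :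
    Matrix.transvection i j (-a) * Matrix.transvection j i ((1 - a) / a) *
      Matrix.transvection i j (1 : F) * Matrix.transvection j i (a - 1) =
    Matrix.diagonal (Function.update (Function.update (fun _ => (1 : F)) i a) j a⁻¹) := by
  have hji : j ≠ i := hij.symm
  ext p q
  by_cases hqi : q = i
  · subst hqi
    rw [Matrix.mul_transvection_apply_same, Matrix.mul_transvection_apply_of_ne _ _ _ _ hij,
      Matrix.mul_transvection_apply_same, Matrix.mul_transvection_apply_same,
      Matrix.mul_transvection_apply_same, Matrix.mul_transvection_apply_of_ne _ _ _ _ hji]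
    by_cases hp : p = q
    · subst hp
      simp [Matrix.transvection, Matrix.single_apply, Matrix.one_apply, hij, hji,
        Matrix.diagonal_apply]
      field_simp
      ring
    · by_cases hpj : p = j
      · subst hpj
        simp [Matrix.transvection, Matrix.single_apply, Matrix.one_apply, hij, hji,
          Matrix.diagonal_apply]
        field_simp
        ring
      · simp [Matrix.transvection, Matrix.single_apply, Matrix.one_apply, hij, hji,
          Matrix.diagonal_apply, hp, hpj, Ne.symm hp, Ne.symm hpj]
  · rw [Matrix.mul_transvection_apply_of_ne _ _ _ _ hqi]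
    by_cases hqj : q = j
    · subst hqj
      rw [Matrix.mul_transvection_apply_same, Matrix.mul_transvection_apply_of_ne _ _ _ _ hqi,
        Matrix.mul_transvection_apply_same]
      by_cases hp : p = i
      · subst hp
        simp [Matrix.transvection, Matrix.single_apply, Matrix.one_apply, hij, hji,
          Matrix.diagonal_apply]
        field_simp
        ring
      · by_cases hpj : p = q
        · subst hpj
          simp [Matrix.transvection, Matrix.single_apply, Matrix.one_apply, hij, hji,
            Matrix.diagonal_apply]
          field_simp
          ring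
        · simp [Matrix.transvection, Matrix.single_apply, Matrix.one_apply, hij, hji,
            Matrix.diagonal_apply, hp, hpj, Ne.symm hp, Ne.symm hpj]
    · rw [Matrix.mul_transvection_apply_of_ne _ _ _ _ hqj,
        Matrix.mul_transvection_apply_of_ne _ _ _ _ hqi]
      by_cases hpq : p = q
      · subst hpq
        simp [Matrix.transvection, Matrix.single_apply, Matrix.one_apply, hij, hji,
          Matrix.diagonal_apply, hqi, hqj, Ne.symm hqi, Ne.symm hqj]
      · simp [Matrix.transvection, Matrix.single_apply, Matrix.one_apply, hij, hji,
          Matrix.diagonal_apply, hqi, hqj, Ne.symm hqi, Ne.symm hqj, hpq]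

private theorem slnA_dd (M : Set (Matrix (Fin n) (Fin n) F)) 
    (mul : ∀ h ∈ M, ∀ k ∈ M, h * k ∈ M)
    (tv : ∀ x y : Fin n, x ≠ y → ∀ a : F, Matrix.transvection x y a ∈ M)
    {i j : Fin n} (hij : i ≠ j) (a : F) (ha : a ≠ 0) :
    Matrix.diagonal (Function.update (Function.update (fun _ => (1 : F)) i a) j a⁻¹) ∈ M := by
  rw [← slnA_four hij a ha]
  exact mul _ (mul _ (mul _ (tv _ _ hij _) _ (tv _ _ hij.symm _)) _ (tv _ _ hij _)) _
    (tv _ _ hij.symm _)

open Classical in
private theorem slnA_diag (M : Set (Matrix (Fin n) (Fin n) F)) (one : 1 ∈ M)
    (mul : ∀ h ∈ M, ∀ k ∈ M, h * k ∈ M)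
    (tv : ∀ x y : Fin n, x ≠ y → ∀ a : F, Matrix.transvection x y a ∈ M) :
    ∀ (N : ℕ) (D : Fin n → F), (Finset.univ.filter fun i => D i ≠ 1).card = N → ∏ i, D i = 1 →
      Matrix.diagonal D ∈ M := by
  intro N
  induction N using Nat.strong_induction_on with
  | _ N ih =>
    intro D hN hD
    by_cases hall : ∀ i, D i = 1
    · have : Matrix.diagonal D = 1 := by
        rw [← Matrix.diagonal_one]
        congr 1
        funext i
        exact hall i
      rw [this]
      exact one
    · push Not at hall
      obtain ⟨i, hi⟩ := hall
      have hne : ∀ k, D k ≠ 0 := by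
        intro k hk
        have : ∏ i, D i = 0 := Finset.prod_eq_zero (Finset.mem_univ k) hk
        rw [this] at hD
        exact zero_ne_one hD
      have hj : ∃ j, j ≠ i ∧ D j ≠ 1 := by
        by_contra hcon
        push Not at hcon
        have : ∏ k, D k = D i := by
          rw [Finset.prod_eq_single i]
          · intro b _ hb
            exact hcon b hb
          · intro h
            exact absurd (Finset.mem_univ i) h
        rw [this] at hD
        exact hi hD
      obtain ⟨j, hji, hj1⟩ := hj
      have hij : i ≠ j := hji.symm
      set D' : Fin n → F := Function.update (Function.update D i 1) j (D i * D j) with hD'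
      have hfac : D = fun k =>
          (Function.update (Function.update (fun _ => (1 : F)) i (D i)) j (D i)⁻¹) k * D' k := by
        funext k
        by_cases hk : k = j
        · subst hk
          simp [hD', inv_mul_cancel_left₀ (hne i)]
        · by_cases hk' : k = i
          · subst hk'
            simp [hD', hk]
          · simp [hD', hk, hk']
      have hprod : ∏ k, D' k = 1 := by
        have h1 : ∏ k, D k = (∏ k, (Function.update (Function.update (fun _ => (1 : F)) i (D i))
            j (D i)⁻¹) k) * ∏ k, D' k := by
          rw [← Finset.prod_mul_distrib]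
          exact Finset.prod_congr rfl fun k _ => congrFun hfac k
        have h2 : (∏ k, (Function.update (Function.update (fun _ => (1 : F)) i (D i))
            j (D i)⁻¹) k) = 1 := by
          rw [Finset.prod_update_of_mem (Finset.mem_univ j),
            ← Finset.mul_prod_erase (Finset.univ \ {j}) _ (a := i) (by simp [hij])]
          have h3 : ∏ x ∈ (Finset.univ \ {j}).erase i,
              (Function.update (fun _ => (1 : F)) i (D i)) x = 1 := by
            apply Finset.prod_eq_one
            intro x hx
            have hx' : x ≠ i := (Finset.mem_erase.mp hx).1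
            simp [hx']
          rw [h3]
          simp [hne i]
        rw [h2, one_mul] at h1
        rw [← h1, hD]
      have hcard : (Finset.univ.filter fun k => D' k ≠ 1).card < N := by
        rw [← hN]
        apply Finset.card_lt_card
        refine Finset.ssubset_iff_subset_ne.mpr ⟨?_, ?_⟩
        · intro k hk
          simp only [Finset.mem_filter, Finset.mem_univ, true_and] at hk ⊢
          by_cases hkj : k = j
          · subst hkj
            exact hj1
          · by_cases hki : k = i
            · subst hki
              exact hi
            · simpa [hD', hkj, hki] using hk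
        · intro h
          have : i ∈ Finset.univ.filter fun k => D' k ≠ 1 := by
            rw [h]
            simp [hi]
          simp [hD', hij] at this
      have hmem := ih _ hcard D' rfl hprod
      have : Matrix.diagonal D = Matrix.diagonal
          (Function.update (Function.update (fun _ => (1 : F)) i (D i)) j (D i)⁻¹) *
          Matrix.diagonal D' := by
        rw [Matrix.diagonal_mul_diagonal]
        congr 1
      rw [this]
      exact mul _ (slnA_dd M mul tv hij _ (hne i)) _ hmem

private theorem slnA_list (M : Set (Matrix (Fin n) (Fin n) F)) (one : 1 ∈ M)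
    (mul : ∀ h ∈ M, ∀ k ∈ M, h * k ∈ M)
    (tv : ∀ x y : Fin n, x ≠ y → ∀ a : F, Matrix.transvection x y a ∈ M)
    (L : List (Matrix.TransvectionStruct (Fin n) F)) :
    (L.map Matrix.TransvectionStruct.toMatrix).prod ∈ M := by
  induction L with
  | nil => simpa using one
  | cons t L ih =>
    rw [List.map_cons, List.prod_cons]
    exact mul _ (tv _ _ t.hij _) _ ih

/-- a matrix of determinant one is a product of transvections -/
theorem sln_one (M : Set (Matrix (Fin n) (Fin n) F)) (one : 1 ∈ M)
    (mul : ∀ h ∈ M, ∀ k ∈ M, h * k ∈ M)
    (tv : ∀ x y : Fin n, x ≠ y → ∀ a : F, Matrix.transvection x y a ∈ M)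
    (h : Matrix (Fin n) (Fin n) F) (hh : h.det = 1) : h ∈ M := by
  obtain ⟨L, L', D, hD⟩ := Matrix.Pivot.exists_list_transvec_mul_diagonal_mul_list_transvec h
  have hdet : ∏ i, D i = 1 := by
    have h1 := congrArg Matrix.det hD
    rw [Matrix.det_mul, Matrix.det_mul, Matrix.TransvectionStruct.det_toMatrix_prod,
      Matrix.TransvectionStruct.det_toMatrix_prod, Matrix.det_diagonal, hh, one_mul, mul_one] at h1
    exact h1.symm
  rw [hD]
  exact mul _ (mul _ (slnA_list M one mul tv L) _ (slnA_diag M one mul tv _ D rfl hdet)) _
    (slnA_list M one mul tv L')

end Pool.Agent.MUG
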