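import Pool.Agent.MUG.Mv

/-!
# MUG: the tangent space at `1` of the Zariski closure of a group
-/

set_option linter.unusedSectionVars false
set_option linter.unusedVariables false

namespace Pool.Agent.MUG

open Pool.Agent.MUW

universe w

variable {F : Type w} [Field F] {l : ℕ} {r : Fin l → ℕ}

/-- The tangent space at `1` of the Zariski closure of `N`. -/
noncomputable def Tan (N : Set (Tup F r)) : Submodule F (Tup F r) where
  carrier := {X | ∀ p, Van N p → MvPolynomial.eval (crd fun _ => 1) (Dv X p) = 0}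
  zero_mem' := by
    intro p _
    have h1 := dv_smul (0 : F) (0 : Tup F r) p
    have h2 : (fun i => (0 : F) • (0 : Tup F r) i) = (0 : Tup F r) := by
      funext i
      exact zero_smul F _
    rw [h2, zero_smul] at h1
    rw [h1, map_zero]
  add_mem' := by
    intro X Y hX hY p hp
    have h1 := dv_add X Y p
    have h2 : (fun i => X i + Y i) = X + Y := rfl
    rw [h2] at h1
    rw [h1, map_add, hX p hp, hY p hp, add_zero]
  smul_mem' := by
    intro a X hX p hp
    have h1 := dv_smul a X p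
    have h2 : (fun i => a • X i) = a • X := rfl
    rw [h2] at h1
    rw [h1, MvPolynomial.smul_eval, hX p hp, mul_zero]

theorem mem_tan (N : Set (Tup F r)) (X : Tup F r) :
    X ∈ Tan N ↔ ∀ p, Van N p → MvPolynomial.eval (crd fun _ => 1) (Dv X p) = 0 := Iff.rfl

private theorem tan_mv_van {N : Set (Tup F r)} (hN : Grp N) {g : Tup F r} (hg : g ∈ N)
    {p : MvPolynomial (Crd r) F} (hp : Van N p) : Van N (Mv g (fun _ => 1) p) := by
  intro h hh
  rw [eval_mv]
  have h1 : (fun i => g i * h i * (1 : Matrix (Fin (r i)) (Fin (r i)) F)) =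
      fun i => g i * h i := by
    funext i
    rw [mul_one]
  rw [h1]
  exact hp _ (hN.mul g hg h hh)

theorem dv_van {N : Set (Tup F r)} (hN : Grp N) {X : Tup F r} (hX : X ∈ Tan N)
    {p : MvPolynomial (Crd r) F} (hp : Van N p) : Van N (Dv X p) := by
  intro g hg
  have h1 := hX _ (tan_mv_van hN hg hp)
  rw [dv_mv, eval_mv] at h1
  have h2 : (fun i => g i * (1 : Matrix (Fin (r i)) (Fin (r i)) F) *
      (1 : Matrix (Fin (r i)) (Fin (r i)) F)) = g := by
    funext i
    rw [mul_one, mul_one]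
  rw [h2] at h1
  exact h1

theorem tan_br {N : Set (Tup F r)} (hN : Grp N) {X Y : Tup F r} (hX : X ∈ Tan N)
    (hY : Y ∈ Tan N) : (fun i => X i * Y i - Y i * X i) ∈ Tan N := by
  intro p hp
  rw [← dv_comm, map_sub, hX _ (dv_van hN hY hp), hY _ (dv_van hN hX hp), sub_zero]

theorem tan_conj {N : Set (Tup F r)} (s : Tup F r) (hs : ∀ i, IsUnit (s i).det)
    (hN : ∀ h ∈ N, (fun i => s i * h i * (s i)⁻¹) ∈ Cl N) {X : Tup F r} (hX : X ∈ Tan N) :
    (fun i => s i * X i * (s i)⁻¹) ∈ Tan N := by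
  intro p hp
  rw [← dv_conj s (fun i => (s i)⁻¹) X (fun i => Matrix.mul_nonsing_inv _ (hs i)) p]
  refine hX _ fun h hh => ?_
  rw [eval_mv]
  exact hN h hh p hp

theorem sub_cl (N : Set (Tup F r)) : N ⊆ Cl N := fun h hh p hp => hp h hh

theorem van_cl {N : Set (Tup F r)} {p : MvPolynomial (Crd r) F} (hp : Van N p) : Van (Cl N) p :=
  fun h hh => hh p hp

theorem tan_mono {N N' : Set (Tup F r)} (h : N ⊆ Cl N') {X : Tup F r} (hX : X ∈ Tan N) :
    X ∈ Tan N' := fun p hp => hX p fun k hk => h hk p hp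

theorem cl_mul {N : Set (Tup F r)} (hN : Grp N) {h k : Tup F r} (hh : h ∈ Cl N) (hk : k ∈ Cl N) :
    (fun i => h i * k i) ∈ Cl N := by
  intro p hp
  have h1 : Van N (Mv (fun _ => 1) k p) := by
    intro g hg
    have h2 := hk _ (tan_mv_van hN hg hp)
    rw [eval_mv] at h2 ⊢
    have h3 : (fun i => g i * k i * (1 : Matrix (Fin (r i)) (Fin (r i)) F)) =
        fun i => (1 : Matrix (Fin (r i)) (Fin (r i)) F) * g i * k i := by
      funext i
      rw [mul_one, one_mul]
    rw [← h3]
    exact h2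
  have h4 := hh _ h1
  rw [eval_mv] at h4
  have h5 : (fun i => (1 : Matrix (Fin (r i)) (Fin (r i)) F) * h i * k i) =
      fun i => h i * k i := by
    funext i
    rw [one_mul]
  rw [h5] at h4
  exact h4

/-- the tangent vectors of a set which is `1` on the factor `i` are `0` on this factor -/
theorem tan_one {N : Set (Tup F r)} (i : Fin l) (h : ∀ k ∈ N, k i = 1) {X : Tup F r}
    (hX : X ∈ Tan N) : X i = 0 := by
  ext a b
  have h1 : Van N (MvPolynomial.X (⟨i, (a, b)⟩ : Crd r) -
      MvPolynomial.C ((1 : Matrix (Fin (r i)) (Fin (r i)) F) a b)) := by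
    intro k hk
    rw [map_sub, MvPolynomial.eval_X, MvPolynomial.eval_C]
    show k i a b - (1 : Matrix (Fin (r i)) (Fin (r i)) F) a b = 0
    rw [h k hk, sub_self]
  have h2 := hX _ h1
  have h3 : Dv X (MvPolynomial.X (⟨i, (a, b)⟩ : Crd r) -
      MvPolynomial.C ((1 : Matrix (Fin (r i)) (Fin (r i)) F) a b)) =
      ∑ y, MvPolynomial.C (X i y b) * MvPolynomial.X (⟨i, (a, y)⟩ : Crd r) := by
    rw [map_sub, MvPolynomial.derivation_C, sub_zero]
    exact MvPolynomial.mkDerivation_X F _ _
  rw [h3, map_sum] at h2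
  have h4 : ∑ y, MvPolynomial.eval (crd fun _ => (1 : Matrix _ _ F))
      (MvPolynomial.C (X i y b) * MvPolynomial.X (⟨i, (a, y)⟩ : Crd r)) = X i a b := by
    rw [Finset.sum_eq_single a]
    · rw [map_mul, MvPolynomial.eval_C, MvPolynomial.eval_X]
      show X i a b * (1 : Matrix (Fin (r i)) (Fin (r i)) F) a a = X i a b
      rw [Matrix.one_apply_eq, mul_one]
    · intro y _ hy
      rw [map_mul, MvPolynomial.eval_C, MvPolynomial.eval_X]
      show X i y b * (1 : Matrix (Fin (r i)) (Fin (r i)) F) a y = 0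
      rw [Matrix.one_apply_ne (Ne.symm hy), mul_zero]
    · intro ha
      exact absurd (Finset.mem_univ _) ha
  rw [h4] at h2
  exact h2

end Pool.Agent.MUG
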